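import Pool.Agent.H89.ProP.Conj

set_option autoImplicit false

namespace H89.ProP

open Multiplicative commutatorElement

section

variable {G W : Type} [Group G] [AddCommGroup W] (v : G →* AddMonoid.End W)

theorem foldC_add (l : List G) (d e : W) : foldC v l (d + e) = foldC v l d + foldC v l e := by
  induction l with
  | nil => rfl
  | cons a l ih =>
    rw [foldC_cons, foldC_cons, foldC_cons, ih, map_add]
    abel

theorem foldC_zero (l : List G) : foldC v l 0 = 0 := by
  induction l with
  | nil => rfl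
  | cons a l ih => rw [foldC_cons, ih, map_zero, sub_zero]

theorem foldC_neg (l : List G) (d : W) : foldC v l (-d) = -foldC v l d := by
  have h := foldC_add v l d (-d)
  rw [add_neg_cancel, foldC_zero] at h
  exact (neg_eq_of_add_eq_zero_right h.symm).symm

/-- elements killed by all products of `n` operators `g - 1` -/
def Zs (n : ℕ) : AddSubgroup W where
  carrier := {d | ∀ l : List G, n ≤ l.length → foldC v l d = 0}
  zero_mem' := fun l _ => foldC_zero v l
  add_mem' := by
    intro a b ha hb l hl
    rw [foldC_add, ha l hl, hb l hl, add_zero]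
  neg_mem' := by
    intro a ha l hl
    rw [foldC_neg, ha l hl, neg_zero]

theorem mem_Zs {n : ℕ} {d : W} : d ∈ Zs v n ↔ ∀ l : List G, n ≤ l.length → foldC v l d = 0 :=
  Iff.rfl

theorem Zs_step {n : ℕ} {d : W} (hd : d ∈ Zs v (n + 1)) (g : G) : v g d - d ∈ Zs v n := by
  intro l hl
  have h1 : v g d - d = foldC v [g] d := rfl
  rw [h1, ← foldC_append]
  exact hd _ (by rw [List.length_append]; simpa using hl)

theorem Zs_inv {n : ℕ} {d : W} (hd : d ∈ Zs v n) (g : G) : v g d ∈ Zs v n := by
  intro l hl
  have h1 : v g d = d + foldC v [g] d := by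
    change v g d = d + (v g d - d)
    abel
  rw [h1, foldC_add, hd l hl, zero_add, ← foldC_append]
  exact hd _ (by rw [List.length_append]; omega)

theorem v_mul_apply (a b : G) (d : W) : v (a * b) d = v a (v b d) := by
  rw [map_mul]; rfl

theorem v_one_apply (d : W) : v 1 d = d := by
  rw [map_one]; rfl

theorem lcs_acts (i : ℕ) : ∀ x ∈ (⊤ : Subgroup G).lowerCentralSeries i, ∀ (j : ℕ),
    ∀ d ∈ Zs v (j + i + 1), v x d - d ∈ Zs v j := by
  induction i with
  | zero =>
    intro x _ j d hd
    exact Zs_step v hd x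
  | succ i ih =>
    let K : Subgroup G :=
      { carrier := {x | ∀ (j : ℕ), ∀ d ∈ Zs v (j + (i + 1) + 1), v x d - d ∈ Zs v j}
        one_mem' := by
          intro j d _
          rw [v_one_apply, sub_self]
          exact (Zs v j).zero_mem
        mul_mem' := by
          intro x y hx hy j d hd
          have h1 : v (x * y) d - d = v x (v y d - d) + (v x d - d) := by
            rw [v_mul_apply, map_sub]
            abel
          rw [h1]
          exact (Zs v j).add_mem (Zs_inv v (hy j d hd) x) (hx j d hd)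
        inv_mem' := by
          intro x hx j d hd
          have h1 : v x⁻¹ d - d = -(v x⁻¹ (v x d - d)) := by
            rw [map_sub, ← v_mul_apply, inv_mul_cancel, v_one_apply]
            abel
          rw [h1]
          exact (Zs v j).neg_mem (Zs_inv v (hx j d hd) x⁻¹) }
    intro x hx
    have hle : (⊤ : Subgroup G).lowerCentralSeries (i + 1) ≤ K := by
      rw [Subgroup.lowerCentralSeries_succ, Subgroup.commutator_le]
      intro y hy g _ j d hd
      set d' := v y⁻¹ (v g⁻¹ d) with hd'
      have hd'm : d' ∈ Zs v (j + (i + 1) + 1) := Zs_inv v (Zs_inv v hd _) _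
      have h1 : v ⁅y, g⁆ d = v y (v g d') := by
        rw [commutatorElement_def, v_mul_apply, v_mul_apply, v_mul_apply]
      have h2 : d = v g (v y d') := by
        rw [hd', ← v_mul_apply v y, mul_inv_cancel, v_one_apply, ← v_mul_apply, mul_inv_cancel,
          v_one_apply]
      have h3 : v ⁅y, g⁆ d - d = (v y (v g d' - d') - (v g d' - d')) -
          (v g (v y d' - d') - (v y d' - d')) := by
        rw [h1, map_sub, map_sub, ← h2]
        abel
      rw [h3]
      refine (Zs v j).sub_mem ?_ ?_
      · refine ih y hy j _ (Zs_step v ?_ g)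
        exact hd'm
      · refine Zs_step v (ih y hy (j + 1) _ ?_) g
        have h4 : j + 1 + i + 1 = j + (i + 1) + 1 := by ring
        rw [h4]
        exact hd'm
    exact hle hx

end

section

variable {G : Type} [Group G]

/-- maximal abelian normal subgroups of nilpotent groups are self-centralising -/
theorem exists_max_abelian [Finite G] [hnil : Group.IsNilpotent G] :
    ∃ A : Subgroup G, AbNormal A ∧ ∀ x, (∀ a ∈ A, x * a = a * x) → x ∈ A := by
  classical
  obtain ⟨A, hA⟩ : ∃ A : Subgroup G, Maximal AbNormal A := by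
    have hfin : Finite (Subgroup G) := inferInstance
    have hne : AbNormal (⊥ : Subgroup G) :=
      ⟨inferInstance, by
        intro x hx y hy
        rw [Subgroup.mem_bot] at hx hy
        rw [hx, hy]⟩
    obtain ⟨A, -, hA⟩ := Set.Finite.exists_le_maximal (s := {N : Subgroup G | AbNormal N})
      (Set.toFinite _) hne
    exact ⟨A, hA⟩
  refine ⟨A, hA.prop, ?_⟩
  have hAn : A.Normal := hA.prop.normal
  let C : Subgroup G := Subgroup.centralizer (A : Set G)
  have hCn : C.Normal := by
    refine ⟨fun x hx g => ?_⟩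
    rw [Subgroup.mem_centralizer_iff] at hx ⊢
    intro a ha
    have h1 := hx (g⁻¹ * a * g) (by
      have := hAn.conj_mem a ha g⁻¹
      rwa [inv_inv] at this)
    have h2 : g * (g⁻¹ * a * g * x) * g⁻¹ = a * (g * x * g⁻¹) := by group
    have h3 : g * (x * (g⁻¹ * a * g)) * g⁻¹ = g * x * g⁻¹ * a := by group
    rw [← h2, ← h3, h1]
  by_contra hcon
  push Not at hcon
  obtain ⟨x0, hx0, hx0A⟩ := hcon
  have hx0C : x0 ∈ C := by
    rw [Subgroup.mem_centralizer_iff]
    intro a ha
    exact (hx0 a ha).symm
  let Kc : ℕ → Subgroup G := fun n =>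
    Nat.rec (motive := fun _ => Subgroup G) C (fun _ K => ⁅K, (⊤ : Subgroup G)⁆) n
  have hKs : ∀ n, Kc (n + 1) = ⁅Kc n, (⊤ : Subgroup G)⁆ := fun _ => rfl
  have hK0 : Kc 0 = C := rfl
  have hKn : ∀ n, (Kc n).Normal := by
    intro n
    induction n with
    | zero => exact hCn
    | succ n ih =>
      rw [hKs]
      exact @Subgroup.commutator_normal G _ (Kc n) ⊤ ih inferInstance
  have hKl : ∀ n, Kc n ≤ (⊤ : Subgroup G).lowerCentralSeries n := by
    intro n
    induction n with
    | zero => exact le_top
    | succ n ih =>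
      rw [hKs, Subgroup.lowerCentralSeries_succ]
      exact Subgroup.commutator_mono ih le_rfl
  have hKC : ∀ n, Kc n ≤ C := by
    intro n
    induction n with
    | zero => exact le_rfl
    | succ n ih =>
      rw [hKs]
      exact (@Subgroup.commutator_le_left G _ (Kc n) ⊤ (hKn n)).trans ih
  obtain ⟨m, hm⟩ := Subgroup.nilpotent_iff_lowerCentralSeries.1 hnil
  have hex : ∃ n, Kc n ≤ A := ⟨m, (hKl m).trans (by rw [hm]; exact bot_le)⟩
  have hfind := Nat.find_spec hex
  have hne : Nat.find hex ≠ 0 := by
    intro h0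
    rw [h0] at hfind
    exact hx0A (hfind hx0C)
  obtain ⟨j, hj⟩ := Nat.exists_eq_succ_of_ne_zero hne
  rw [hj, Nat.succ_eq_add_one, hKs] at hfind
  have hnot : ¬ Kc j ≤ A := Nat.find_min hex (by rw [hj]; exact Nat.lt_succ_self j)
  obtain ⟨x, hxK, hxA⟩ := SetLike.not_le_iff_exists.1 hnot
  have hxc : ∀ a ∈ A, x * a = a * x := fun a ha =>
    ((Subgroup.mem_centralizer_iff.1 (hKC j hxK)) a ha).symm
  have hxg : ∀ g : G, x * g * x⁻¹ * g⁻¹ ∈ A := fun g =>
    hfind (Subgroup.commutator_mem_commutator hxK (Subgroup.mem_top g))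
  let A' : Subgroup G := A ⊔ Subgroup.zpowers x
  have hmem : ∀ y ∈ A', ∃ a ∈ A, ∃ n : ℤ, y = a * x ^ n := by
    intro y hy
    obtain ⟨a, ha, z, hz, rfl⟩ := (Subgroup.mem_sup_of_normal_left).1 hy
    obtain ⟨n, rfl⟩ := Subgroup.mem_zpowers_iff.1 hz
    exact ⟨a, ha, n, rfl⟩
  have hxA' : x ∈ A' := (le_sup_right : _ ≤ A') (Subgroup.mem_zpowers x)
  have hAA' : A ≤ A' := le_sup_left
  have hA'ab : AbNormal A' := by
    refine ⟨⟨fun y hy g => ?_⟩, ?_⟩
    · obtain ⟨a, ha, n, rfl⟩ := hmem y hy
      have h1 : g * (a * x ^ n) * g⁻¹ = (g * a * g⁻¹) * (g * x * g⁻¹) ^ n := by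
        rw [conj_zpow]
        group
      rw [h1]
      refine A'.mul_mem (hAA' (hAn.conj_mem a ha g)) (A'.zpow_mem ?_ n)
      have h2 : g * x * g⁻¹ = (x * g * x⁻¹ * g⁻¹)⁻¹ * x := by group
      rw [h2]
      exact A'.mul_mem (hAA' (A.inv_mem (hxg g))) hxA'
    · intro y hy z hz
      obtain ⟨a, ha, n, rfl⟩ := hmem y hy
      obtain ⟨b, hb, m, rfl⟩ := hmem z hz
      have cab : Commute a b := hA.prop.comm a ha b hb
      have cxa : Commute x a := hxc a ha
      have cxb : Commute x b := hxc b hb
      have h1 : Commute (a * x ^ n) (b * x ^ m) := by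
        refine Commute.mul_left (Commute.mul_right cab ?_) (Commute.mul_right ?_ ?_)
        · exact (cxa.zpow_left m).symm
        · exact cxb.zpow_left n
        · exact (Commute.refl x).zpow_zpow n m
      exact h1
  have hle : A' ≤ A := hA.le_of_ge hA'ab hAA'
  exact hxA (hle hxA')

theorem class_bound {A : Subgroup G} (h : AbNormal A)
    (hself : ∀ x, (∀ a ∈ A, x * a = a * x) → x ∈ A) (f : ℕ)
    (hf : ∀ l : List G, l.length = f → ∀ d, foldC (cj h) l d = 0) :
    (⊤ : Subgroup G).lowerCentralSeries (2 * f) = ⊥ := by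
  have hall : ∀ (n : ℕ) (d : AN A h), f ≤ n → d ∈ Zs (cj h) n := by
    intro n d hn l hl
    have h1 : l = l.take (l.length - f) ++ l.drop (l.length - f) :=
      (List.take_append_drop _ _).symm
    rw [h1, foldC_append, hf (l.drop (l.length - f)) (by rw [List.length_drop]; omega),
      foldC_zero]
  have hle : (⊤ : Subgroup G).lowerCentralSeries f ≤ A := by
    intro x hx
    apply hself
    intro a ha
    have h1 := lcs_acts (cj h) f x hx 0 (AN.mk h a ha) (hall _ _ (by omega))
    have h2 := h1 [] (Nat.zero_le _)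
    rw [foldC_nil, sub_eq_zero] at h2
    have h3 := congrArg (AN.val h) h2
    rw [val_cj, AN.val_mk] at h3
    calc x * a = (x * a * x⁻¹) * x := by group
      _ = a * x := by rw [h3]
  have key : ∀ j : ℕ, ∀ x ∈ (⊤ : Subgroup G).lowerCentralSeries (f + j), ∃ hx : x ∈ A,
      AN.mk h x hx ∈ Zs (cj h) (f - j) := by
    intro j
    induction j with
    | zero => exact fun x hx => ⟨hle hx, hall _ _ (by omega)⟩
    | succ j ih =>
      let K : Subgroup G :=
        { carrier := {x | ∃ hx : x ∈ A, AN.mk h x hx ∈ Zs (cj h) (f - (j + 1))}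
          one_mem' := ⟨A.one_mem, (Zs (cj h) _).zero_mem⟩
          mul_mem' := by
            rintro x y ⟨hx, hx'⟩ ⟨hy, hy'⟩
            exact ⟨A.mul_mem hx hy, (Zs (cj h) _).add_mem hx' hy'⟩
          inv_mem' := by
            rintro x ⟨hx, hx'⟩
            exact ⟨A.inv_mem hx, (Zs (cj h) _).neg_mem hx'⟩ }
      have hK : (⊤ : Subgroup G).lowerCentralSeries (f + (j + 1)) ≤ K := by
        rw [← add_assoc, Subgroup.lowerCentralSeries_succ, Subgroup.commutator_comm,
          Subgroup.commutator_le]
        intro g _ x hx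
        obtain ⟨hxA, hx'⟩ := ih x hx
        have h1 : ⁅g, x⁆ ∈ A := by
          rw [commutatorElement_def]
          exact A.mul_mem (h.normal.conj_mem _ hxA g) (A.inv_mem hxA)
        refine ⟨h1, ?_⟩
        have h2 : AN.mk h ⁅g, x⁆ h1 = cj h g (AN.mk h x hxA) - AN.mk h x hxA := by
          apply AN.val_injective
          rw [AN.val_sub, val_cj, AN.val_mk, AN.val_mk, commutatorElement_def]
        rw [h2]
        intro l hl
        have h3 : cj h g (AN.mk h x hxA) - AN.mk h x hxA = foldC (cj h) [g] (AN.mk h x hxA) :=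
          rfl
        rw [h3, ← foldC_append]
        refine hx' _ ?_
        rw [List.length_append, List.length_singleton]
        omega
      exact hK
  rw [eq_bot_iff]
  intro x hx
  have h1 : 2 * f = f + f := by ring
  rw [h1] at hx
  obtain ⟨hxA, hx'⟩ := key f x hx
  have h2 := hx' [] (by simp)
  rw [foldC_nil] at h2
  have h3 := congrArg (AN.val h) h2
  rw [AN.val_mk, AN.val_zero] at h3
  rw [Subgroup.mem_bot]
  exact h3

end

end H89.ProP
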