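import Pool.Agent.H89.ProP.Defs

set_option autoImplicit false

namespace H89.ProP

/-- A class of topological groups. -/
abbrev GroupClass : Type 1 := (G : Type) → [Group G] → [TopologicalSpace G] → Prop

/-- `V` is a variety of profinite groups: its members are profinite groups, and it is closed under
isomorphisms, closed subgroups, quotients by closed normal subgroups and Cartesian products. -/
structure IsVariety (V : GroupClass) : Prop where
  profinite : ∀ (G : Type) [Group G] [TopologicalSpace G], V G →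
    IsTopologicalGroup G ∧ CompactSpace G ∧ TotallyDisconnectedSpace G ∧ T2Space G
  iso : ∀ (G H : Type) [Group G] [TopologicalSpace G] [Group H] [TopologicalSpace H],
    Nonempty (G ≃ₜ* H) → V G → V H
  sub : ∀ (G : Type) [Group G] [TopologicalSpace G], V G →
    ∀ H : Subgroup G, IsClosed (H : Set G) → V (↥H)
  quot : ∀ (G : Type) [Group G] [TopologicalSpace G], V G →
    ∀ (N : Subgroup G) [N.Normal], IsClosed (N : Set G) → V (G ⧸ N)
  pi : ∀ (I : Type) (H : I → Type) [∀ i, Group (H i)] [∀ i, TopologicalSpace (H i)],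
    (∀ i, V (H i)) → V ((i : I) → H i)

/-- All members of `V` are pro-`p`: their open normal subgroups have `p`-power index. -/
def IsProP (p : ℕ) (V : GroupClass) : Prop :=
  ∀ (G : Type) [Group G] [TopologicalSpace G], V G →
    ∀ N : Subgroup G, IsOpen (N : Set G) → N.Normal → ∃ k : ℕ, N.index = p ^ k

/-- topologically finitely generated -/
def TopFG (G : Type) [Group G] [TopologicalSpace G] : Prop :=
  ∃ s : Finset G, closure ((Subgroup.closure (s : Set G) : Subgroup G) : Set G) = Set.univ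

/-- every topologically finitely generated member is nilpotent -/
def LocNilp (V : GroupClass) : Prop :=
  ∀ (G : Type) [Group G] [TopologicalSpace G], V G → TopFG G → Group.IsNilpotent G

/-- every member is nilpotent -/
def Nilp (V : GroupClass) : Prop :=
  ∀ (G : Type) [Group G] [TopologicalSpace G], V G → Group.IsNilpotent G

/-- The members of `V` which are extensions of an elementary abelian `p`-group by an elementary
abelian `p`-group: some normal subgroup `N` is abelian of exponent dividing `p`, and so is the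
quotient by `N`. -/
def EEV (p : ℕ) (V : GroupClass) : GroupClass := fun G _ _ => V G ∧ EE p G

section EEfacts

variable {p : ℕ}

theorem EE.iso {G H : Type*} [Group G] [Group H] (e : G ≃* H) (h : EE p G) : EE p H := by
  obtain ⟨N, hN, h1, h2, h3, h4⟩ := h
  refine ⟨N.map e.toMonoidHom, hN.map _ e.surjective, ?_, ?_, ?_, ?_⟩
  · rintro _ ⟨x, hx, rfl⟩ _ ⟨y, hy, rfl⟩
    rw [← map_mul, ← map_mul, h1 x hx y hy]
  · rintro _ ⟨x, hx, rfl⟩
    rw [← map_pow, h2 x hx, map_one]
  · intro x y
    obtain ⟨x, rfl⟩ := e.surjective x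
    obtain ⟨y, rfl⟩ := e.surjective y
    exact ⟨_, h3 x y, by simp⟩
  · intro x
    obtain ⟨x, rfl⟩ := e.surjective x
    exact ⟨_, h4 x, by simp⟩

theorem EE.sub {G : Type*} [Group G] (h : EE p G) (H : Subgroup G) : EE p H := by
  obtain ⟨N, hN, h1, h2, h3, h4⟩ := h
  refine ⟨N.comap H.subtype, hN.comap _, ?_, ?_, ?_, ?_⟩
  · intro x hx y hy
    exact Subtype.ext (h1 _ hx _ hy)
  · intro x hx
    exact Subtype.ext (h2 _ hx)
  · intro x y
    exact h3 x y
  · intro x
    exact h4 x

theorem EE.surj {G H : Type*} [Group G] [Group H] (h : EE p G) (f : G →* H)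
    (hf : Function.Surjective f) : EE p H := by
  obtain ⟨N, hN, h1, h2, h3, h4⟩ := h
  refine ⟨N.map f, hN.map f hf, ?_, ?_, ?_, ?_⟩
  · rintro _ ⟨x, hx, rfl⟩ _ ⟨y, hy, rfl⟩
    rw [← map_mul, ← map_mul, h1 x hx y hy]
  · rintro _ ⟨x, hx, rfl⟩
    rw [← map_pow, h2 x hx, map_one]
  · intro x y
    obtain ⟨x, rfl⟩ := hf x
    obtain ⟨y, rfl⟩ := hf y
    exact ⟨_, h3 x y, by simp⟩
  · intro x
    obtain ⟨x, rfl⟩ := hf x
    exact ⟨_, h4 x, by simp⟩

theorem EE.pi {I : Type*} {H : I → Type*} [∀ i, Group (H i)] (h : ∀ i, EE p (H i)) :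
    EE p ((i : I) → H i) := by
  choose N hN h1 h2 h3 h4 using h
  refine ⟨Subgroup.pi Set.univ N, ⟨?_⟩, ?_, ?_, ?_, ?_⟩
  · intro x hx g i hi
    exact (hN i).conj_mem _ (hx i hi) _
  · intro x hx y hy
    funext i
    exact h1 i _ (hx i trivial) _ (hy i trivial)
  · intro x hx
    funext i
    exact h2 i _ (hx i trivial)
  · intro x y i _
    exact h3 i _ _
  · intro x i _
    exact h4 i _

theorem finite_of_fg_comm_exp {G : Type*} [Group G] [Group.FG G] (hp : 0 < p)
    (hcomm : ∀ x y : G, x * y = y * x) (hexp : ∀ x : G, x ^ p = 1) : Finite G := by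
  let _ : CommGroup G := { (inferInstance : Group G) with mul_comm := hcomm }
  refine CommGroup.finite_of_fg_isMulTorsion (G := G) ?_
  intro x
  exact isOfFinOrder_iff_pow_eq_one.2 ⟨p, hp, hexp x⟩

theorem EE.finite {G : Type*} [Group G] [hfg : Group.FG G] (hp : 0 < p) (h : EE p G) :
    Finite G := by
  obtain ⟨N, hN, h1, h2, h3, h4⟩ := h
  have hQ : Finite (G ⧸ N) := by
    refine finite_of_fg_comm_exp hp ?_ ?_
    · intro x y
      obtain ⟨x, rfl⟩ := QuotientGroup.mk_surjective x
      obtain ⟨y, rfl⟩ := QuotientGroup.mk_surjective y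
      have h5 := h3 x⁻¹ y⁻¹
      rw [← QuotientGroup.mk_mul, ← QuotientGroup.mk_mul, eq_comm, QuotientGroup.eq]
      have h6 : (y * x)⁻¹ * (x * y) = x⁻¹ * y⁻¹ * x⁻¹⁻¹ * y⁻¹⁻¹ := by group
      rw [h6]
      exact h5
    · intro x
      obtain ⟨x, rfl⟩ := QuotientGroup.mk_surjective x
      rw [← QuotientGroup.mk_pow]
      exact (QuotientGroup.eq_one_iff _).2 (h4 x)
  have hfi : N.FiniteIndex := Subgroup.finiteIndex_of_finite_quotient
  have hNf : Finite N := by
    refine finite_of_fg_comm_exp (G := N) hp ?_ ?_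
    · intro x y
      exact Subtype.ext (h1 _ x.2 _ y.2)
    · intro x
      exact Subtype.ext (h2 _ x.2)
  exact Finite.of_subgroup_quotient N

end EEfacts

/-- nilpotency passes to quotients -/
theorem lcs_of_surj {G H : Type*} [Group G] [Group H] (f : G →* H) (hf : Function.Surjective f)
    {n : ℕ} (h : (⊤ : Subgroup G).lowerCentralSeries n = ⊥) :
    (⊤ : Subgroup H).lowerCentralSeries n = ⊥ := by
  have h1 := Subgroup.map_lowerCentralSeries (⊤ : Subgroup G) f n
  rw [h, Subgroup.map_bot, Subgroup.map_top_of_surjective f hf] at h1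
  exact h1.symm

variable {p : ℕ} {V : GroupClass}

/-- the finite groups of a variety form a `FinVar` -/
theorem finVar (hV : IsVariety V) (hp : IsProP p V) :
    FinVar p (fun G _ => Finite G ∧ @V G _ ⊥) := by
  constructor
  · rintro G _ ⟨h, -⟩
    exact h
  · rintro G _ ⟨h, hG⟩
    let _ : TopologicalSpace G := ⊥
    have hd : DiscreteTopology G := ⟨rfl⟩
    obtain ⟨k, hk⟩ := hp G hG ⊥ (isOpen_discrete _) inferInstance
    rw [Subgroup.index_bot] at hk
    exact IsPGroup.of_card hk
  · rintro G H _ _ ⟨e⟩ ⟨h, hG⟩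
    refine ⟨Finite.of_equiv _ e.toEquiv, ?_⟩
    let _ : TopologicalSpace G := ⊥
    let _ : TopologicalSpace H := ⊥
    have hd : DiscreteTopology G := ⟨rfl⟩
    have hd' : DiscreteTopology H := ⟨rfl⟩
    exact hV.iso G H ⟨{ e with
      continuous_toFun := continuous_of_discreteTopology
      continuous_invFun := continuous_of_discreteTopology }⟩ hG
  · rintro G _ ⟨h, hG⟩ H
    refine ⟨inferInstance, ?_⟩
    let _ : TopologicalSpace G := ⊥
    have hd : DiscreteTopology G := ⟨rfl⟩
    have h1 := hV.sub G hG H (isClosed_discrete _)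
    have h2 : (instTopologicalSpaceSubtype : TopologicalSpace H) = ⊥ :=
      DiscreteTopology.eq_bot
    rw [h2] at h1
    exact h1
  · rintro G _ ⟨h, hG⟩ N _
    refine ⟨inferInstance, ?_⟩
    let _ : TopologicalSpace G := ⊥
    have hd : DiscreteTopology G := ⟨rfl⟩
    have htg : IsTopologicalGroup G := (hV.profinite G hG).1
    have h1 := hV.quot G hG N (isClosed_discrete _)
    have hdq : DiscreteTopology (G ⧸ N) := QuotientGroup.discreteTopology (isOpen_discrete _)
    have h2 : (QuotientGroup.instTopologicalSpace N : TopologicalSpace (G ⧸ N)) = ⊥ :=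
      DiscreteTopology.eq_bot
    rw [h2] at h1
    exact h1
  · rintro G _ ⟨h, hG⟩ I _
    refine ⟨inferInstance, ?_⟩
    let _ : TopologicalSpace G := ⊥
    have hd : DiscreteTopology G := ⟨rfl⟩
    have h1 := hV.pi I (fun _ => G) (fun _ => hG)
    have h2 : (Pi.topologicalSpace : TopologicalSpace (I → G)) = ⊥ := DiscreteTopology.eq_bot
    rw [h2] at h1
    exact h1

/-- quotients by open normal subgroups -/
theorem quot_open (hV : IsVariety V) {G : Type} [Group G] [TopologicalSpace G] (hG : V G)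
    (N : Subgroup G) [N.Normal] (hN : IsOpen (N : Set G)) : Finite (G ⧸ N) ∧ @V (G ⧸ N) _ ⊥ := by
  obtain ⟨htg, hc, -, -⟩ := hV.profinite G hG
  have hdq : DiscreteTopology (G ⧸ N) := QuotientGroup.discreteTopology hN
  refine ⟨Subgroup.quotient_finite_of_isOpen N hN, ?_⟩
  have h1 := hV.quot G hG N (N.isClosed_of_isOpen hN)
  have h2 : (QuotientGroup.instTopologicalSpace N : TopologicalSpace (G ⧸ N)) = ⊥ :=
    DiscreteTopology.eq_bot
  rw [h2] at h1
  exact h1

/-- `EEV p V` is a variety -/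
theorem isVariety_EEV (hV : IsVariety V) : IsVariety (EEV p V) := by
  constructor
  · rintro G _ _ ⟨hG, -⟩
    exact hV.profinite G hG
  · rintro G H _ _ _ _ ⟨e⟩ ⟨hG, hE⟩
    exact ⟨hV.iso G H ⟨e⟩ hG, hE.iso e.toMulEquiv⟩
  · rintro G _ _ ⟨hG, hE⟩ H hH
    exact ⟨hV.sub G hG H hH, hE.sub H⟩
  · rintro G _ _ ⟨hG, hE⟩ N _ hN
    exact ⟨hV.quot G hG N hN, hE.surj (QuotientGroup.mk' N) (QuotientGroup.mk'_surjective N)⟩
  · intro I H _ _ h
    exact ⟨hV.pi I H (fun i => (h i).1), EE.pi (fun i => (h i).2)⟩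

/-- `EEV p V` is locally nilpotent -/
theorem locNilp_EEV (hp0 : p.Prime) (hV : IsVariety V) (hp : IsProP p V) :
    LocNilp (EEV p V) := by
  rintro G _ _ ⟨hG, hE⟩ ⟨s, hs⟩
  obtain ⟨htg, hc, htd, ht2⟩ := hV.profinite G hG
  have hfac : Fact p.Prime := ⟨hp0⟩
  have hfg : Group.FG (Subgroup.closure (s : Set G)) := Group.closure_finset_fg s
  have hfin : Finite (Subgroup.closure (s : Set G)) := (hE.sub _).finite hp0.pos
  have hcl : IsClosed ((Subgroup.closure (s : Set G) : Subgroup G) : Set G) :=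
    (Set.toFinite _).isClosed
  rw [hcl.closure_eq] at hs
  have hGf : Finite G := by
    rw [← Set.finite_univ_iff, ← hs]
    exact Set.toFinite _
  have hd : DiscreteTopology G := inferInstance
  obtain ⟨k, hk⟩ := hp G hG ⊥ (isOpen_discrete _) inferInstance
  rw [Subgroup.index_bot] at hk
  have hpg : IsPGroup p G := IsPGroup.of_card hk
  exact hpg.isNilpotent

/-- if the classes of the members of `EEV` are unbounded, it is not nilpotent -/
theorem not_nilp_EEV (hV : IsVariety V)
    (h : ∀ c : ℕ, ∃ (G : Type) (_ : Group G) (_ : TopologicalSpace G), EEV p V G ∧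
      (⊤ : Subgroup G).lowerCentralSeries c ≠ ⊥) : ¬ Nilp (EEV p V) := by
  intro hn
  choose G hG1 hG2 hG3 hG4 using h
  have h1 : V ((c : ℕ) → G c) := hV.pi ℕ G (fun c => (hG3 c).1)
  have h2 : EE p ((c : ℕ) → G c) := EE.pi (fun c => (hG3 c).2)
  have h3 : Group.IsNilpotent ((c : ℕ) → G c) := hn _ ⟨h1, h2⟩
  obtain ⟨n, hn⟩ := Subgroup.nilpotent_iff_lowerCentralSeries.1 h3
  exact hG4 n (lcs_of_surj (Pi.evalMonoidHom G n) (Function.surjective_eval n) hn)

end H89.ProP
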