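import Pool.Agent.H89.ProP.Core
import Pool.Agent.H89.ProP.VarDefs

set_option autoImplicit false

namespace H89.ProP

open Multiplicative Topology

theorem main_step {p : ℕ} (hp : p.Prime) {V : GroupClass} (hV : IsVariety V) (hVp : IsProP p V)
    (c k : ℕ) (hck : c ≤ p ^ k)
    (hc : ∀ (G : Type) [Group G], (Finite G ∧ @V G _ ⊥) → EE p G →
      (⊤ : Subgroup G).lowerCentralSeries c = ⊥)
    (hfin : ∀ (G : Type) [Group G] [TopologicalSpace G], V G → TopFG G →
      (∀ x : G, x ^ (p ^ k) = 1) → Finite G) : LocNilp V := by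
  classical
  intro G _ _ hG hfg
  have hfac : Fact p.Prime := ⟨hp⟩
  obtain ⟨htg, hcpt, htd, ht2⟩ := hV.profinite G hG
  have hP := finVar hV hVp
  -- the exponent
  let K0 : Subgroup G := Subgroup.closure {x : G | ∃ y : G, y ^ (p ^ k) = x}
  let H : Subgroup G := K0.topologicalClosure
  have hK0n : K0.Normal := by
    refine ⟨fun x hx g => ?_⟩
    have h1 : K0 ≤ K0.comap (MulAut.conj g).toMonoidHom := by
      refine (Subgroup.closure_le _).2 ?_
      rintro _ ⟨y, rfl⟩
      refine Subgroup.subset_closure ⟨g * y * g⁻¹, ?_⟩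
      rw [conj_pow]
      rfl
    exact h1 hx
  have hHn : H.Normal := Subgroup.is_normal_topologicalClosure K0
  have hHc : IsClosed (H : Set G) := K0.isClosed_topologicalClosure
  have hQ : V (G ⧸ H) := hV.quot G hG H hHc
  have hQexp : ∀ x : G ⧸ H, x ^ (p ^ k) = 1 := by
    intro x
    obtain ⟨x, rfl⟩ := QuotientGroup.mk_surjective x
    rw [← QuotientGroup.mk_pow]
    refine (QuotientGroup.eq_one_iff _).2 (K0.le_topologicalClosure ?_)
    exact Subgroup.subset_closure ⟨x, rfl⟩
  have hQfg : TopFG (G ⧸ H) := by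
    obtain ⟨s, hs⟩ := hfg
    refine ⟨s.image (QuotientGroup.mk' H), ?_⟩
    rw [Finset.coe_image, ← MonoidHom.map_closure, Subgroup.coe_map]
    have hcont : Continuous (QuotientGroup.mk' H) := QuotientGroup.continuous_mk
    have hd : Dense ((Subgroup.closure (s : Set G) : Subgroup G) : Set G) :=
      dense_iff_closure_eq.2 hs
    exact dense_iff_closure_eq.1
      ((QuotientGroup.mk'_surjective H).denseRange.dense_image hcont hd)
  have hQfin : Finite (G ⧸ H) := hfin _ hQ hQfg hQexp
  have hft : Fintype (G ⧸ H) := Fintype.ofFinite _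
  let Θ : Finset G := Finset.univ.image (fun x : G ⧸ H => x.out)
  -- maximal abelian normal subgroups
  have hquot : ∀ O : OpenNormalSubgroup G,
      Finite (G ⧸ O.toSubgroup) ∧ @V (G ⧸ O.toSubgroup) _ ⊥ := fun O =>
    quot_open hV hG O.toSubgroup O.isOpen'
  have hmax : ∀ O : OpenNormalSubgroup G, ∃ A : Subgroup (G ⧸ O.toSubgroup), AbNormal A ∧
      ∀ x, (∀ a ∈ A, x * a = a * x) → x ∈ A := by
    intro O
    have h1 : Finite (G ⧸ O.toSubgroup) := (hquot O).1
    have h2 : IsPGroup p (G ⧸ O.toSubgroup) := hP.pg _ (hquot O)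
    have h3 : Group.IsNilpotent (G ⧸ O.toSubgroup) := h2.isNilpotent
    exact exists_max_abelian
  choose A hA hself using hmax
  -- uniform bound
  have hunif : ∃ f : ℕ, ∀ (O : OpenNormalSubgroup G) (l : List G), l.length = f →
      ∀ d, foldC ((cj (hA O)).comp (QuotientGroup.mk' O.toSubgroup)) l d = 0 := by
    by_contra hcon
    push Not at hcon
    choose O l hl d hd using hcon
    obtain ⟨f, hf⟩ := core hP c hc Θ k hck (fun n => G ⧸ (O n).toSubgroup)
      (fun n => hquot (O n)) (fun n => QuotientGroup.mk' (O n).toSubgroup)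
      (fun n => A (O n)) (fun n => hA (O n)) (by
        intro n g
        let θ : G := (QuotientGroup.mk g : G ⧸ H).out
        have hθ : θ ∈ Θ := Finset.mem_image_of_mem _ (Finset.mem_univ _)
        have h1 : θ⁻¹ * g ∈ H := by
          rw [← QuotientGroup.eq]
          exact Quotient.out_eq' _
        let U : Set G := ⋂ m ∈ Finset.range (n + 1), ((O m).toSubgroup : Set G)
        have hU : IsOpen U := isOpen_biInter_finset fun m _ => (O m).isOpen'
        let U' : Set G := (fun x => (θ⁻¹ * g)⁻¹ * x) ⁻¹' U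
        have hU' : IsOpen U' := hU.preimage (continuous_const.mul continuous_id)
        have h2 : θ⁻¹ * g ∈ U' := by
          change (θ⁻¹ * g)⁻¹ * (θ⁻¹ * g) ∈ U
          rw [inv_mul_cancel]
          exact Set.mem_iInter₂.2 fun m _ => (O m).toSubgroup.one_mem
        have h3 : θ⁻¹ * g ∈ closure (K0 : Set G) := h1
        obtain ⟨h, hhU, hhK⟩ := mem_closure_iff.1 h3 U' hU' h2
        refine ⟨θ, hθ, h, hhK, fun m hm => ?_⟩
        have h4 : (θ⁻¹ * g)⁻¹ * h ∈ (O m).toSubgroup :=
          Set.mem_iInter₂.1 hhU m (Finset.mem_range.2 (Nat.lt_succ_of_le hm))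
        have h5 : (QuotientGroup.mk' (O m).toSubgroup) (θ⁻¹ * g) =
            (QuotientGroup.mk' (O m).toSubgroup) h := QuotientGroup.eq.2 h4
        rw [← h5, ← map_mul, mul_inv_cancel_left])
    exact hd f (hf f (l f) (hl f) (d f))
  obtain ⟨f, hf⟩ := hunif
  refine Subgroup.nilpotent_iff_lowerCentralSeries.2 ⟨2 * f, ?_⟩
  rw [eq_bot_iff]
  intro x hx
  rw [Subgroup.mem_bot]
  by_contra hx1
  obtain ⟨O, hO⟩ := ProfiniteGrp.exist_openNormalSubgroup_sub_open_nhds_of_one
    (U := {x}ᶜ) isOpen_compl_singleton (by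
      rw [Set.mem_compl_singleton_iff]
      exact fun h => hx1 h.symm)
  have hcl : (⊤ : Subgroup (G ⧸ O.toSubgroup)).lowerCentralSeries (2 * f) = ⊥ := by
    refine class_bound (hA O) (hself O) f ?_
    intro l hl d
    have h1 := hf O (l.map Quotient.out) (by rw [List.length_map]; exact hl) d
    rw [← h1]
    clear h1 hl
    induction l with
    | nil => rfl
    | cons a l ih =>
      rw [List.map_cons, foldC_cons, foldC_cons, ← ih]
      have h2 : ((cj (hA O)).comp (QuotientGroup.mk' O.toSubgroup)) (Quotient.out a) =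
          cj (hA O) a := by
        change cj (hA O) (QuotientGroup.mk (Quotient.out a)) = cj (hA O) a
        rw [QuotientGroup.out_eq']
      rw [h2]
  have h1 := Subgroup.map_lowerCentralSeries (⊤ : Subgroup G) (QuotientGroup.mk' O.toSubgroup)
    (2 * f)
  rw [Subgroup.map_top_of_surjective _ (QuotientGroup.mk'_surjective _), hcl] at h1
  have h2 : (QuotientGroup.mk' O.toSubgroup) x ∈
      ((⊤ : Subgroup G).lowerCentralSeries (2 * f)).map (QuotientGroup.mk' O.toSubgroup) :=
    ⟨x, hx, rfl⟩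
  rw [h1, Subgroup.mem_bot] at h2
  have h3 : x ∈ O.toSubgroup := (QuotientGroup.eq_one_iff _).1 h2
  exact hO h3 rfl

/-- the trichotomy -/
theorem trichotomy {p : ℕ} (hp : p.Prime) {V : GroupClass} (hV : IsVariety V)
    (hVp : IsProP p V) :
    ¬ Nilp (EEV p V) ∨ LocNilp V ∨
      ∃ k : ℕ, IsLeast {k : ℕ | ∀ (G : Type) [Group G] [TopologicalSpace G], EEV p V G →
          (⊤ : Subgroup G).lowerCentralSeries (p ^ k) = ⊥} k ∧
        ∃ (G : Type) (_ : Group G) (_ : TopologicalSpace G), V G ∧ TopFG G ∧ Infinite G ∧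
          ∀ x : G, x ^ (p ^ k) = 1 := by
  classical
  by_contra hcon
  push Not at hcon
  obtain ⟨h1, h2, h3⟩ := hcon
  have hb : ∃ c : ℕ, ∀ (G : Type) [Group G] [TopologicalSpace G], EEV p V G →
      (⊤ : Subgroup G).lowerCentralSeries c = ⊥ := by
    by_contra hno
    push Not at hno
    refine not_nilp_EEV (p := p) hV (fun c => ?_) h1
    obtain ⟨G, hG, hG0, hG1, hG2⟩ := hno c
    exact ⟨G, hG, hG0, hG1, hG2⟩
  have hex : ∃ k : ℕ, ∀ (G : Type) [Group G] [TopologicalSpace G], EEV p V G →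
      (⊤ : Subgroup G).lowerCentralSeries (p ^ k) = ⊥ := by
    obtain ⟨c, hc⟩ := hb
    refine ⟨c, fun G _ _ hG => ?_⟩
    rw [eq_bot_iff, ← hc G hG]
    exact Subgroup.lowerCentralSeries_antitone _ (Nat.lt_pow_self hp.one_lt).le
  have hleast := Nat.isLeast_find hex
  refine h2 (main_step hp hV hVp (p ^ (Nat.find hex)) (Nat.find hex) le_rfl ?_ ?_)
  · intro G _ hG hE
    exact @hleast.1 G _ ⊥ ⟨hG.2, hE⟩
  · intro G _ _ hG hfg hk
    by_contra hinf
    rw [not_finite_iff_infinite] at hinf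
    obtain ⟨x, hx⟩ := h3 _ hleast G inferInstance inferInstance hG hfg hinf
    exact hx (hk x)

end H89.ProP
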