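import Pool.Agent.H89.ProP.Semi

set_option autoImplicit false

namespace H89.ProP

open Multiplicative commutatorElement

section

variable {R M T : Type} [CommRing R] [AddCommGroup M] [Module R M] [CommGroup T] (u : T →* R)
  (c p : ℕ)

/-- action of `T` on `M` -/
def vM (M : Type) [AddCommGroup M] [Module R M] : T →* AddMonoid.End M :=
  (Module.toAddMonoidEnd R M).toMonoidHom.comp u

theorem vM_apply (t : T) (w : M) : vM u M t w = u t • w := rfl

/-- action of `T ^ c` on `⊕_S M` -/
def vW (M : Type) [AddCommGroup M] [Module R M] :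
    (Fin c → T) →* AddMonoid.End (Finset (Fin c) → M) where
  toFun t :=
    { toFun := fun d S => (∏ i ∈ S, u (t i)) • d S
      map_zero' := by
        funext S
        simp
      map_add' := by
        intro d e
        funext S
        simp }
  map_one' := by
    ext d S
    change (∏ i ∈ S, u ((1 : Fin c → T) i)) • d S = d S
    simp
  map_mul' s t := by
    ext d S
    change (∏ i ∈ S, u ((s * t) i)) • d S = (∏ i ∈ S, u (s i)) • (∏ i ∈ S, u (t i)) • d S
    simp [Finset.prod_mul_distrib, mul_smul]

theorem vW_apply (t : Fin c → T) (d : Finset (Fin c) → M) (S : Finset (Fin c)) :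
    vW u c M t d S = (∏ i ∈ S, u (t i)) • d S := rfl

/-- alternating sum -/
def fF (d : Finset (Fin c) → M) (t : Fin c → T) : M :=
  ∑ S : Finset (Fin c), ((-1 : R) ^ (Sᶜ.card) * ∏ i ∈ S, u (t i)) • d S

theorem fF_vW (d : Finset (Fin c) → M) (a t : Fin c → T) :
    fF u c (vW u c M a d) t = fF u c d (t * a) := by
  unfold fF
  refine Finset.sum_congr rfl fun S _ => ?_
  rw [vW_apply, smul_smul, mul_assoc, ← Finset.prod_mul_distrib]
  simp

theorem fF_add (d e : Finset (Fin c) → M) (t : Fin c → T) :
    fF u c (d + e) t = fF u c d t + fF u c e t := by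
  simp [fF, Finset.sum_add_distrib]

theorem fF_sub (d e : Finset (Fin c) → M) (t : Fin c → T) :
    fF u c (d - e) t = fF u c d t - fF u c e t := by
  simp [fF, smul_sub, Finset.sum_sub_distrib]

theorem fF_neg (d : Finset (Fin c) → M) (t : Fin c → T) :
    fF u c (-d) t = - fF u c d t := by
  simp [fF, smul_neg, Finset.sum_neg_distrib]

theorem fF_zero (t : Fin c → T) : fF u c (0 : Finset (Fin c) → M) t = 0 := by
  simp [fF]

theorem fF_const (w : M) (t : Fin c → T) :
    fF u c (fun _ => w) t = (∏ i, (u (t i) - 1)) • w := by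
  unfold fF
  rw [← Finset.sum_smul]
  congr 1
  simp_rw [sub_eq_add_neg]
  rw [Finset.prod_add, Finset.powerset_univ]
  refine Finset.sum_congr rfl fun S _ => ?_
  rw [Finset.prod_const, mul_comm, Finset.compl_eq_univ_sdiff]

/-- submodule spanned by the `c`-fold products -/
def EM (M : Type) [AddCommGroup M] [Module R M] : Submodule R M :=
  Submodule.span R {x | ∃ (t : Fin c → T) (w : M), (∏ i, (u (t i) - 1)) • w = x}

theorem mem_EM (t : Fin c → T) (w : M) : (∏ i, (u (t i) - 1)) • w ∈ EM u c M :=
  Submodule.subset_span ⟨t, w, rfl⟩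

/-- the ideal -/
def JI : Ideal R := Ideal.span ({(p : R)} ∪ Set.range (fun t => u t - 1))

theorem p_mem_JI : (p : R) ∈ JI u p := Ideal.subset_span (Or.inl rfl)

theorem u_mem_JI (t : T) : u t - 1 ∈ JI u p := Ideal.subset_span (Or.inr ⟨t, rfl⟩)

theorem pow_sub_one (hp : p.Prime) (x : R) (hx : x - 1 ∈ JI u p) :
    ∃ j ∈ JI u p, x ^ p - 1 = j * (x - 1) := by
  obtain ⟨r, hr⟩ := exists_add_pow_prime_eq hp (x - 1) 1
  refine ⟨(x - 1) ^ (p - 1) + p * r, ?_, ?_⟩
  · refine Ideal.add_mem _ ?_ (Ideal.mul_mem_right _ _ (p_mem_JI u p))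
    exact Ideal.pow_mem_of_mem _ hx _ (Nat.sub_pos_of_lt hp.one_lt)
  · rw [sub_add_cancel] at hr
    rw [hr]
    have h1 : (x - 1) ^ p = (x - 1) ^ (p - 1) * (x - 1) := by
      rw [← pow_succ, Nat.sub_add_cancel hp.one_le]
    rw [h1]
    ring

theorem const_step (hp : p.Prime) (t : Fin c → T) (j : Fin c) (s : T) (w : M) :
    (∏ i, (u (Function.update t j (t j * s ^ p) i) - 1)) • w - (∏ i, (u (t i) - 1)) • w ∈
      JI u p • EM u c M := by
  obtain ⟨e, he, hes⟩ := pow_sub_one u p hp (u s) (u_mem_JI u p s)
  have h1 : ∀ x : T, (∏ i, (u (Function.update t j x i) - 1)) =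
      (u x - 1) * ∏ i ∈ Finset.univ.erase j, (u (t i) - 1) := by
    intro x
    rw [← Finset.mul_prod_erase _ _ (Finset.mem_univ j)]
    congr 1
    · simp
    · refine Finset.prod_congr rfl fun i hi => ?_
      rw [Function.update_of_ne (Finset.ne_of_mem_erase hi)]
  have h2 : (∏ i, (u (t i) - 1)) = ∏ i, (u (Function.update t j (t j) i) - 1) := by
    rw [Function.update_eq_self]
  rw [h2, h1, h1, ← sub_smul, ← sub_mul]
  have h3 : (u (t j * s ^ p) - 1 - (u (t j) - 1)) * ∏ i ∈ Finset.univ.erase j, (u (t i) - 1) =
      (u (t j) * e) * (∏ i, (u (Function.update t j s i) - 1)) := by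
    rw [h1, map_mul, map_pow]
    have : u (t j) * u s ^ p - 1 - (u (t j) - 1) = u (t j) * (u s ^ p - 1) := by ring
    rw [this, hes]
    ring
  rw [h3, mul_smul]
  exact Submodule.smul_mem_smul (Ideal.mul_mem_left _ _ he) (mem_EM u c _ _)

theorem const_mem (hp : p.Prime) (t s : Fin c → T) (w : M) :
    (∏ i, (u ((t * s ^ p) i) - 1)) • w - (∏ i, (u (t i) - 1)) • w ∈ JI u p • EM u c M := by
  classical
  have key : ∀ S : Finset (Fin c),
      (∏ i, (u ((S.piecewise (t * s ^ p) t) i) - 1)) • w - (∏ i, (u (t i) - 1)) • w ∈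
        JI u p • EM u c M := by
    intro S
    induction S using Finset.induction_on with
    | empty => simp
    | insert j S hj ih =>
      rw [Finset.piecewise_insert]
      have h1 := const_step u c p hp (S.piecewise (t * s ^ p) t) j (s j) w
      have h2 : (S.piecewise (t * s ^ p) t) j * (s j) ^ p = (t * s ^ p) j := by
        simp [hj]
      rw [h2] at h1
      have h3 := Submodule.add_mem _ h1 ih
      rwa [sub_add_sub_cancel] at h3
  have h1 := key Finset.univ
  rwa [Finset.piecewise_univ] at h1

/-- the subgroup `D''` -/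
def DD (M : Type) [AddCommGroup M] [Module R M] : AddSubgroup (Finset (Fin c) → M) where
  carrier := {d | (∀ t, fF u c d t ∈ EM u c M) ∧
    ∀ t s, fF u c d (t * s ^ p) - fF u c d t ∈ JI u p • EM u c M}
  zero_mem' := by
    refine ⟨fun t => ?_, fun t s => ?_⟩
    · rw [fF_zero]; exact Submodule.zero_mem _
    · rw [fF_zero, fF_zero, sub_zero]; exact Submodule.zero_mem _
  add_mem' := by
    rintro d e ⟨h1, h2⟩ ⟨h3, h4⟩
    refine ⟨fun t => ?_, fun t s => ?_⟩
    · rw [fF_add]; exact Submodule.add_mem _ (h1 t) (h3 t)
    · rw [fF_add, fF_add, add_sub_add_comm]; exact Submodule.add_mem _ (h2 t s) (h4 t s)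
  neg_mem' := by
    rintro d ⟨h1, h2⟩
    refine ⟨fun t => ?_, fun t s => ?_⟩
    · rw [fF_neg]; exact Submodule.neg_mem _ (h1 t)
    · rw [fF_neg, fF_neg, neg_sub_neg, ← neg_sub]; exact Submodule.neg_mem _ (h2 t s)

/-- the subgroup `D0` -/
def DZ (M : Type) [AddCommGroup M] [Module R M] : AddSubgroup (Finset (Fin c) → M) where
  carrier := {d | ∀ t, fF u c d t ∈ JI u p • EM u c M}
  zero_mem' := by
    intro t
    rw [fF_zero]; exact Submodule.zero_mem _
  add_mem' := by
    intro d e h1 h2 t
    rw [fF_add]; exact Submodule.add_mem _ (h1 t) (h2 t)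
  neg_mem' := by
    intro d h1 t
    rw [fF_neg]; exact Submodule.neg_mem _ (h1 t)

theorem fF_nsmul (n : ℕ) (d : Finset (Fin c) → M) (t : Fin c → T) :
    fF u c (n • d) t = n • fF u c d t := by
  induction n with
  | zero => rw [zero_smul, zero_smul, fF_zero]
  | succ n ih => rw [add_smul, add_smul, one_smul, one_smul, fF_add, ih]

/-- embedding of the big semidirect product -/
def embW : SD (vW u c M) →* (Finset (Fin c) ⊕ Fin c → SD (vM u M)) where
  toFun x := fun k => match k with
    | Sum.inl S => ⟨ofAdd (x.left.toAdd S), ∏ i ∈ S, x.right i⟩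
    | Sum.inr i => ⟨1, x.right i⟩
  map_one' := by
    funext k
    rcases k with S | i
    · refine SemidirectProduct.ext rfl ?_
      change ∏ i ∈ S, (1 : T) = 1
      simp
    · rfl
  map_mul' := by
    intro x y
    funext k
    rcases k with S | i
    · refine SemidirectProduct.ext ?_ ?_
      · change x.left.toAdd S + (∏ i ∈ S, u (x.right i)) • y.left.toAdd S =
          x.left.toAdd S + u (∏ i ∈ S, x.right i) • y.left.toAdd S
        rw [map_prod]
      · change ∏ i ∈ S, (x.right i * y.right i) = (∏ i ∈ S, x.right i) * ∏ i ∈ S, y.right i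
        rw [Finset.prod_mul_distrib]
    · refine SemidirectProduct.ext ?_ rfl
      change (0 : M) = 0 + u (x.right i) • (0 : M)
      simp

theorem embW_injective : Function.Injective (embW (M := M) u c) := by
  intro x y h
  refine SemidirectProduct.ext ?_ ?_
  · change x.left.toAdd = y.left.toAdd
    funext S
    have h1 := congrArg SemidirectProduct.left (congrFun h (Sum.inl S))
    exact h1
  · funext i
    have h1 := congrArg SemidirectProduct.right (congrFun h (Sum.inr i))
    exact h1

theorem foldC_single (t : Fin c → T) (w : M) :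
    foldC (vW u c M) ((List.finRange c).map (fun i => Pi.mulSingle i (t i))) (fun _ => w)
      Finset.univ = (∏ i, (u (t i) - 1)) • w ∧
    ∀ S, S ≠ Finset.univ →
      foldC (vW u c M) ((List.finRange c).map (fun i => Pi.mulSingle i (t i))) (fun _ => w)
        S = 0 := by
  classical
  have key : ∀ (l : List (Fin c)) (d : Finset (Fin c) → M) (S : Finset (Fin c)),
      foldC (vW u c M) (l.map (fun i => Pi.mulSingle i (t i))) d S =
        (l.map (fun i => if i ∈ S then u (t i) - 1 else 0)).prod • d S := by
    intro l d S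
    induction l with
    | nil => simp [foldC]
    | cons a l ih =>
      have h1 : foldC (vW u c M) (List.map (fun i => Pi.mulSingle i (t i)) (a :: l)) d S =
        vW u c M (Pi.mulSingle a (t a))
          (foldC (vW u c M) (List.map (fun i => Pi.mulSingle i (t i)) l) d) S -
          foldC (vW u c M) (List.map (fun i => Pi.mulSingle i (t i)) l) d S := rfl
      have h2 : ∏ i ∈ S, u ((Pi.mulSingle a (t a) : Fin c → T) i) =
          if a ∈ S then u (t a) else 1 := by
        split_ifs with ha
        · rw [Finset.prod_eq_single_of_mem a ha]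
          · simp
          · intro b _ hb
            simp [Pi.mulSingle_eq_of_ne hb]
        · refine Finset.prod_eq_one fun b hb => ?_
          rw [Pi.mulSingle_eq_of_ne, map_one]
          rintro rfl
          exact ha hb
      rw [h1, vW_apply, h2, ih, List.map_cons, List.prod_cons, mul_smul]
      split_ifs with ha
      · rw [sub_smul, one_smul]
      · simp
  constructor
  · rw [key]
    congr 1
    rw [show (∏ i, (u (t i) - 1)) = ((List.finRange c).map (fun i => u (t i) - 1)).prod from ?_]
    · congr 1
      refine List.map_congr_left fun i _ => ?_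
      simp
    · rw [← List.prod_toFinset _ (List.nodup_finRange c)]
      simp
  · intro S hS
    rw [key]
    obtain ⟨i, hi⟩ : ∃ i, i ∉ S := by
      by_contra h
      push Not at h
      exact hS (Finset.eq_univ_iff_forall.2 h)
    have h1 : (List.map (fun i => if i ∈ S then u (t i) - 1 else 0) (List.finRange c)).prod
        = 0 := by
      apply List.prod_eq_zero
      rw [List.mem_map]
      exact ⟨i, List.mem_finRange i, by simp [hi]⟩
    rw [h1, zero_smul]

/-- **A1.** -/
theorem A1core {P : (G : Type) → [Group G] → Prop} (hp : p.Prime) (hP : FinVar p P)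
    (hc : ∀ (G : Type) [Group G], P G → EE p G → (⊤ : Subgroup G).lowerCentralSeries c = ⊥)
    (hG : P (SD (vM u M))) (t : Fin c → T) (w : M) : (∏ i, (u (t i) - 1)) • w = 0 := by
  classical
  -- first, `E ≤ J • E`
  have hW : P (SD (vW u c M)) := hP.inj (hP.pow _ hG _) (embW u c) (embW_injective u c)
  have hstep : EM u c M ≤ JI u p • EM u c M := by
    refine Submodule.span_le.2 ?_
    rintro _ ⟨t, w, rfl⟩
    let A' : Subgroup (Fin c → T) :=
      { carrier := {a | ∀ d ∈ DD u c p M, vW u c M a d - d ∈ DZ u c p M}
        one_mem' := by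
          intro d _
          rw [map_one]
          change d - d ∈ _
          rw [sub_self]
          exact AddSubgroup.zero_mem _
        mul_mem' := by
          intro a b ha hb d hd
          intro t
          rw [fF_sub, fF_vW, ← mul_assoc]
          have h1 := ha d hd t
          have h2 := hb d hd (t * a)
          rw [fF_sub, fF_vW] at h1 h2
          have h4 := Submodule.add_mem _ h2 h1
          rwa [sub_add_sub_cancel] at h4
        inv_mem' := by
          intro a ha d hd t
          rw [fF_sub, fF_vW]
          have h2 := ha d hd (t * a⁻¹)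
          rw [fF_sub, fF_vW, inv_mul_cancel_right] at h2
          rw [← neg_sub]
          exact Submodule.neg_mem _ h2 }
    have hd : (fun _ => w : Finset (Fin c) → M) ∈ DD u c p M := by
      refine ⟨fun t => ?_, fun t s => ?_⟩
      · rw [fF_const]
        exact mem_EM _ _ _ _
      · rw [fF_const, fF_const]
        exact const_mem u c p hp t s w
    have h1 := sd_main (p := p) hP c hc (vW u c M) hW (DD u c p M) (DZ u c p M) A' ?_ ?_ ?_ ?_ ?_
      ((List.finRange c).map (fun i => Pi.mulSingle i (t i))) (by simp) (fun _ => w) hd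
    · have h2 := h1 1
      obtain ⟨h3, h4⟩ := foldC_single u c t w
      unfold fF at h2
      rw [Finset.sum_eq_single Finset.univ, h3] at h2
      · simpa using h2
      · intro S _ hS
        rw [h4 S hS, smul_zero]
      · intro h
        exact absurd (Finset.mem_univ _) h
    · rintro a d ⟨h1, h2⟩
      refine ⟨fun t => ?_, fun t s => ?_⟩
      · rw [fF_vW]
        exact h1 _
      · rw [fF_vW, fF_vW]
        have := h2 (t * a) s
        rwa [mul_right_comm] at this
    · intro a d h1 t
      rw [fF_vW]
      exact h1 _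
    · rintro d ⟨h1, h2⟩ t
      rw [fF_nsmul, ← Nat.cast_smul_eq_nsmul R]
      exact Submodule.smul_mem_smul (p_mem_JI u p) (h1 t)
    · intro a ha
      exact ha
    · intro a d hd t
      rw [fF_sub, fF_vW]
      exact hd.2 t a
  -- then nilpotency of `J`
  have hfin : Finite (SD (vM u M)) := hP.fin _ hG
  have hpg : IsPGroup p (SD (vM u M)) := hP.pg _ hG
  have : Finite T := Finite.of_injective (SemidirectProduct.inr : T → SD (vM u M))
    SemidirectProduct.inr_injective
  have : Finite (Multiplicative M) := Finite.of_injective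
    (SemidirectProduct.inl : Multiplicative M → SD (vM u M)) SemidirectProduct.inl_injective
  have : Finite M := ‹Finite (Multiplicative M)›
  have hpM : IsPGroup p (Multiplicative M) := hpg.of_injective _ SemidirectProduct.inl_injective
  have hpT : IsPGroup p T := hpg.of_injective _ SemidirectProduct.inr_injective
  have hfact : Fact p.Prime := ⟨hp⟩
  obtain ⟨k, hk⟩ := IsPGroup.iff_card.1 hpM
  have hpk : ((p : R) ^ k) ∈ Module.annihilator R M := by
    rw [Module.mem_annihilator]
    intro m
    rw [← Nat.cast_pow, Nat.cast_smul_eq_nsmul, ← hk]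
    exact card_nsmul_eq_zero'
  have hprad : (p : R) ∈ (Module.annihilator R M).radical := ⟨k, hpk⟩
  have hJ : JI u p ≤ (Module.annihilator R M).radical := by
    refine Ideal.span_le.2 ?_
    rintro x (rfl | ⟨t, rfl⟩)
    · exact hprad
    · obtain ⟨m, hm⟩ := hpT t
      obtain ⟨r, hr⟩ := exists_add_pow_prime_pow_eq hp (u t - 1) 1 m
      rw [sub_add_cancel, ← map_pow, hm, map_one, one_pow] at hr
      have h1 : (u t - 1) ^ (p ^ m) = (p : R) * (-((u t - 1) * r)) := by
        linear_combination -hr
      refine Ideal.mem_radical_of_pow_mem (m := p ^ m) ?_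
      rw [h1]
      exact Ideal.mul_mem_right _ _ hprad
  have hfg : (JI u p).FG := by
    have hfs : (({(p : R)} : Set R) ∪ Set.range (fun t => u t - 1)).Finite :=
      (Set.finite_singleton _).union (Set.finite_range _)
    exact ⟨hfs.toFinset, by rw [Set.Finite.coe_toFinset]; rfl⟩
  obtain ⟨K, hK⟩ := Ideal.exists_pow_le_of_le_radical_of_fg hJ hfg
  have hEn : ∀ n : ℕ, EM u c M ≤ (JI u p) ^ n • EM u c M := by
    intro n
    induction n with
    | zero => simp
    | succ n ih =>
      calc EM u c M ≤ (JI u p) ^ n • EM u c M := ih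
        _ ≤ (JI u p) ^ n • (JI u p • EM u c M) := Submodule.smul_mono le_rfl hstep
        _ = (JI u p) ^ (n + 1) • EM u c M := by
          rw [← Submodule.smul_assoc, smul_eq_mul, pow_succ]
  have hE0 : EM u c M ≤ ⊥ := by
    refine (hEn K).trans ?_
    rw [Submodule.smul_le]
    intro r hr n _
    rw [Submodule.mem_bot]
    exact Module.mem_annihilator.1 (hK hr) n
  exact (Submodule.mem_bot R).1 (hE0 (mem_EM u c t w))

end

end H89.ProP
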