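import Pool.Agent.H89.ProP.A1

set_option autoImplicit false

namespace H89.ProP

open Multiplicative commutatorElement

/-- abelian normal subgroups -/
structure AbNormal {G : Type} [Group G] (N : Subgroup G) : Prop where
  normal : N.Normal
  comm : ∀ x ∈ N, ∀ y ∈ N, x * y = y * x

/-- an abelian normal subgroup, written additively -/
def AN {G : Type} [Group G] (N : Subgroup G) (_h : AbNormal N) : Type := Additive N

section

variable {G : Type} [Group G] {N : Subgroup G} (h : AbNormal N)

instance : AddCommGroup (AN N h) :=
  { (inferInstance : AddGroup (Additive N)) with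
    add_comm := fun x y => by
      have h1 := h.comm (Additive.toMul (α := N) x).1 (Additive.toMul (α := N) x).2
        (Additive.toMul (α := N) y).1 (Additive.toMul (α := N) y).2
      exact Subtype.ext h1 }

/-- the underlying element of `G` -/
def AN.val (x : AN N h) : G := (Additive.toMul (α := N) x).1

/-- the element of `AN` given by an element of `N` -/
def AN.mk (x : G) (hx : x ∈ N) : AN N h := Additive.ofMul (α := N) ⟨x, hx⟩

@[simp] theorem AN.val_mk (x : G) (hx : x ∈ N) : AN.val h (AN.mk h x hx) = x := rfl

theorem AN.val_mem (x : AN N h) : AN.val h x ∈ N := (Additive.toMul (α := N) x).2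

@[simp] theorem AN.val_add (x y : AN N h) : AN.val h (x + y) = AN.val h x * AN.val h y := rfl

@[simp] theorem AN.val_zero : AN.val h 0 = 1 := rfl

@[simp] theorem AN.val_neg (x : AN N h) : AN.val h (-x) = (AN.val h x)⁻¹ := rfl

theorem AN.val_sub (x y : AN N h) : AN.val h (x - y) = AN.val h x * (AN.val h y)⁻¹ := by
  rw [sub_eq_add_neg]
  rfl

theorem AN.val_injective : Function.Injective (AN.val h) := fun _ _ hxy => Subtype.ext hxy

theorem AN.val_nsmul (n : ℕ) (x : AN N h) : AN.val h (n • x) = (AN.val h x) ^ n := by
  induction n with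
  | zero => rw [zero_smul, pow_zero]; rfl
  | succ n ih => rw [add_smul, one_smul, AN.val_add, ih, pow_succ]

/-- conjugation action -/
def cj : G →* AddMonoid.End (AN N h) where
  toFun g :=
    { toFun := fun x => AN.mk h (g * AN.val h x * g⁻¹) (h.normal.conj_mem _ (AN.val_mem h x) g)
      map_zero' := by
        apply AN.val_injective
        simp
      map_add' := by
        intro x y
        apply AN.val_injective
        simp }
  map_one' := by
    ext x
    apply AN.val_injective
    change 1 * AN.val h x * 1⁻¹ = AN.val h x
    simp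
  map_mul' := by
    intro a b
    ext x
    apply AN.val_injective
    change (a * b) * AN.val h x * (a * b)⁻¹ = a * (b * AN.val h x * b⁻¹) * a⁻¹
    group

theorem val_cj (g : G) (x : AN N h) : AN.val h (cj h g x) = g * AN.val h x * g⁻¹ := rfl

/-- **A1** for one element. -/
theorem cj_pow {p : ℕ} {P : (G : Type) → [Group G] → Prop} (hp : p.Prime) (hP : FinVar p P)
    (c : ℕ)
    (hc : ∀ (G : Type) [Group G], P G → EE p G → (⊤ : Subgroup G).lowerCentralSeries c = ⊥)
    (hG : P G) (g : G) : (cj h g - 1) ^ c = 0 := by
  classical
  let T := Subgroup.zpowers g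
  let _ : CommGroup T :=
    { T.toGroup with
      mul_comm := by
        rintro ⟨a, m, rfl⟩ ⟨b, n, rfl⟩
        refine Subtype.ext ?_
        change g ^ m * g ^ n = g ^ n * g ^ m
        rw [← zpow_add, ← zpow_add, add_comm] }
  let f : MonoidAlgebra ℤ T →ₐ[ℤ] AddMonoid.End (AN N h) :=
    MonoidAlgebra.lift ℤ (AddMonoid.End (AN N h)) T ((cj h).comp T.subtype)
  let _ : Module (MonoidAlgebra ℤ T) (AN N h) := Module.compHom (AN N h) f.toRingHom
  let u : T →* MonoidAlgebra ℤ T := MonoidAlgebra.of ℤ T
  have hu : ∀ (t : T) (w : AN N h), u t • w = cj h t.1 w := by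
    intro t w
    change f (u t) w = _
    congr 1
    change MonoidAlgebra.lift ℤ _ _ _ (MonoidAlgebra.of ℤ T t) = _
    rw [MonoidAlgebra.lift_of]
    rfl
  let e : SD (vM u (AN N h)) →* G × G :=
    { toFun := fun x => (AN.val h x.left.toAdd * x.right.1, x.right.1)
      map_one' := by
        change ((1 : G) * 1, (1 : G)) = 1
        simp
      map_mul' := by
        intro x y
        have h1 : AN.val h (x * y).left.toAdd =
          AN.val h x.left.toAdd * (x.right.1 * AN.val h y.left.toAdd * x.right.1⁻¹) := by
          change AN.val h (x.left.toAdd + u x.right • y.left.toAdd) = _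
          rw [hu]
          rfl
        refine Prod.ext ?_ ?_
        · change AN.val h (x * y).left.toAdd * (x.right.1 * y.right.1) =
            (AN.val h x.left.toAdd * x.right.1) * (AN.val h y.left.toAdd * y.right.1)
          rw [h1]
          group
        · rfl }
  have he : Function.Injective e := by
    intro x y hxy
    have h1 : AN.val h x.left.toAdd * x.right.1 = AN.val h y.left.toAdd * y.right.1 :=
      congrArg Prod.fst hxy
    have h2 : x.right.1 = y.right.1 := congrArg Prod.snd hxy
    rw [h2] at h1
    exact SemidirectProduct.ext (AN.val_injective h (mul_right_cancel h1)) (Subtype.ext h2)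
  have hSD : P (SD (vM u (AN N h))) := hP.inj (hP.prod hG) e he
  have key := A1core (M := AN N h) u c p hp hP hc hSD (fun _ => ⟨g, Subgroup.mem_zpowers g⟩)
  ext w
  have h1 := key w
  rw [Finset.prod_const, Finset.card_univ, Fintype.card_fin] at h1
  have h2 : ∀ r : MonoidAlgebra ℤ T, r • w = f r w := fun _ => rfl
  rw [h2, map_pow, map_sub, map_one] at h1
  have h3 : f (u ⟨g, Subgroup.mem_zpowers g⟩) = cj h g := by
    change MonoidAlgebra.lift ℤ _ _ _ (MonoidAlgebra.of ℤ T _) = _
    rw [MonoidAlgebra.lift_of]
    rfl
  rw [h3] at h1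
  rw [h1]
  rfl

end

end H89.ProP
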