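import Mathlib

set_option autoImplicit false

namespace H89.ProP

theorem span_closure {E Γ : Type*} [Ring E] [Group Γ] {p K k c : ℕ} (hp : p.Prime)
    (hE : (p : E) ^ K = 0) (ρ : Γ →* E) (hck : c ≤ p ^ k) (hc : ∀ g, (ρ g - 1) ^ c = 0)
    (Θ : Set Γ) (hΘ : ∀ g, ∃ θ ∈ Θ, ∃ h ∈ Subgroup.closure {x : Γ | ∃ y : Γ, y ^ (p ^ k) = x},
      ρ g = ρ θ * ρ h) (g : Γ) : ρ g ∈ AddSubgroup.closure (ρ '' Θ) := by
  classical
  let S : Subring E := Subring.closure (Set.range ρ)
  have hρS : ∀ g, ρ g ∈ S := fun g => Subring.subset_closure ⟨g, rfl⟩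
  have hpow : ∀ y : Γ, ∃ s ∈ S, ρ (y ^ (p ^ k)) = 1 + p * s := by
    intro y
    let x : S := ⟨ρ y - 1, S.sub_mem (hρS y) S.one_mem⟩
    obtain ⟨r, hr⟩ := (Commute.one_right x).exists_add_pow_prime_pow_eq hp k
    have hx : x ^ (p ^ k) = 0 := by
      have h1 : x ^ c = 0 := Subtype.ext (hc y)
      exact pow_eq_zero_of_le hck h1
    rw [hx, one_pow, zero_add, mul_one] at hr
    refine ⟨(x * r : S), (x * r : S).2, ?_⟩
    have h2 := congrArg Subtype.val hr
    rw [map_pow]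
    have h3 : ((x + 1 : S) : E) = ρ y := by
      change ρ y - 1 + 1 = ρ y
      abel
    have h4 : (((x + 1) ^ (p ^ k) : S) : E) = ρ y ^ (p ^ k) := by
      rw [SubmonoidClass.coe_pow, h3]
    rw [← h4, h2]
    change (1 : E) + ((p : S) : E) * x.1 * r.1 = 1 + p * (x.1 * r.1)
    rw [mul_assoc]
    rfl
  have hclos : ∀ h ∈ Subgroup.closure {x : Γ | ∃ y : Γ, y ^ (p ^ k) = x},
      ∃ s ∈ S, ρ h = 1 + p * s := by
    intro h hh
    induction hh using Subgroup.closure_induction with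
    | mem x hx =>
      obtain ⟨y, rfl⟩ := hx
      exact hpow y
    | one => exact ⟨0, S.zero_mem, by simp⟩
    | mul x y _ _ hx hy =>
      obtain ⟨s, hs, h1⟩ := hx
      obtain ⟨t, ht, h2⟩ := hy
      refine ⟨s + t + p * (s * t), S.add_mem (S.add_mem hs ht)
        (S.mul_mem (natCast_mem S p) (S.mul_mem hs ht)), ?_⟩
      rw [map_mul, h1, h2]
      have hcm : s * (p : E) = (p : E) * s := (Nat.cast_commute p s).symm.eq
      calc (1 + (p : E) * s) * (1 + (p : E) * t)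
          = 1 + (p : E) * s + (p : E) * t + (p : E) * (s * (p : E)) * t := by noncomm_ring
        _ = 1 + (p : E) * (s + t + p * (s * t)) := by
          rw [hcm]; noncomm_ring
    | inv x _ hx =>
      obtain ⟨s, hs, h1⟩ := hx
      refine ⟨-(ρ x⁻¹ * s), S.neg_mem (S.mul_mem (hρS _) hs), ?_⟩
      have h2 : ρ x⁻¹ * ρ x = 1 := by rw [← map_mul, inv_mul_cancel, map_one]
      rw [h1] at h2
      have hcm : ρ x⁻¹ * (p : E) = (p : E) * ρ x⁻¹ := (Nat.cast_commute p _).symm.eq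
      have h3 : ρ x⁻¹ * (1 + (p : E) * s) = ρ x⁻¹ + (p : E) * (ρ x⁻¹ * s) := by
        rw [mul_add, mul_one, ← mul_assoc, hcm, mul_assoc]
      rw [h3] at h2
      rw [mul_neg, ← h2]
      abel
  let T0 : AddSubgroup E := AddSubgroup.closure (ρ '' Θ)
  have hS : ∀ s ∈ S, s ∈ AddSubgroup.closure (Set.range ρ) := by
    intro s hs
    have h1 : s ∈ AddSubgroup.closure (Submonoid.closure (Set.range ρ) : Set E) :=
      Subring.mem_closure_iff.1 hs
    have h2 : (Submonoid.closure (Set.range ρ) : Set E) = Set.range ρ := by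
      have h3 : (Submonoid.closure (Set.range ρ)) = MonoidHom.mrange ρ := by
        rw [← MonoidHom.coe_mrange, Submonoid.closure_eq]
      rw [h3, MonoidHom.coe_mrange]
    rwa [h2] at h1
  have h1 : ∀ s ∈ S, ∃ t ∈ T0, ∃ s' ∈ S, s = t + p * s' := by
    intro s hs
    have h2 := hS s hs
    induction h2 using AddSubgroup.closure_induction with
    | mem x hx =>
      obtain ⟨g, rfl⟩ := hx
      obtain ⟨θ, hθ, h, hh, he⟩ := hΘ g
      obtain ⟨s, hs, h3⟩ := hclos h hh
      refine ⟨ρ θ, AddSubgroup.subset_closure ⟨θ, hθ, rfl⟩, ρ θ * s, S.mul_mem (hρS _) hs, ?_⟩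
      have hcm : ρ θ * (p : E) = (p : E) * ρ θ := (Nat.cast_commute p _).symm.eq
      rw [he, h3, mul_add, mul_one, ← mul_assoc, hcm, mul_assoc]
    | zero => exact ⟨0, T0.zero_mem, 0, S.zero_mem, by simp⟩
    | add x y hx hy ihx ihy =>
      obtain ⟨t, ht, s, hs, e1⟩ := ihx (by
        have : x ∈ (AddSubgroup.closure (Set.range ρ)) := hx
        refine (AddSubgroup.closure_le S.toAddSubgroup).2 ?_ this
        rintro _ ⟨g, rfl⟩
        exact hρS g)
      obtain ⟨t', ht', s', hs', e2⟩ := ihy (by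
        have : y ∈ (AddSubgroup.closure (Set.range ρ)) := hy
        refine (AddSubgroup.closure_le S.toAddSubgroup).2 ?_ this
        rintro _ ⟨g, rfl⟩
        exact hρS g)
      refine ⟨t + t', T0.add_mem ht ht', s + s', S.add_mem hs hs', ?_⟩
      rw [e1, e2, mul_add]
      abel
    | neg x hx ihx =>
      obtain ⟨t, ht, s, hs, e1⟩ := ihx (by
        have : x ∈ (AddSubgroup.closure (Set.range ρ)) := hx
        refine (AddSubgroup.closure_le S.toAddSubgroup).2 ?_ this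
        rintro _ ⟨g, rfl⟩
        exact hρS g)
      refine ⟨-t, T0.neg_mem ht, -s, S.neg_mem hs, ?_⟩
      rw [e1, mul_neg]
      abel
  have h2 : ∀ (n : ℕ), ∀ s ∈ S, ∃ t ∈ T0, ∃ s' ∈ S, s = t + (p : E) ^ n * s' := by
    intro n
    induction n with
    | zero => exact fun s hs => ⟨0, T0.zero_mem, s, hs, by simp⟩
    | succ n ih =>
      intro s hs
      obtain ⟨t, ht, s', hs', e1⟩ := ih s hs
      obtain ⟨t', ht', s'', hs'', e2⟩ := h1 s' hs'
      refine ⟨t + (p ^ n) • t', T0.add_mem ht (T0.nsmul_mem ht' _), s'', hs'', ?_⟩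
      rw [e1, e2, nsmul_eq_mul, mul_add, ← mul_assoc, pow_succ, Nat.cast_pow]
      abel
  obtain ⟨t, ht, s', hs', e⟩ := h2 K (ρ g) (hρS g)
  rw [hE, zero_mul, add_zero] at e
  rw [e]
  exact ht

end H89.ProP
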