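import Pool.Agent.H89.ProP.Family
import Pool.Agent.H89.ProP.Span
import Pool.Agent.H89.ProP.NilAct

set_option autoImplicit false

namespace H89.ProP

open Multiplicative

section

theorem core {p : ℕ} [hp : Fact p.Prime] {P : (G : Type) → [Group G] → Prop} (hP : FinVar p P)
    (c : ℕ)
    (hc : ∀ (G : Type) [Group G], P G → EE p G → (⊤ : Subgroup G).lowerCentralSeries c = ⊥)
    {Γ : Type} [Group Γ] (Θ : Finset Γ) (k : ℕ) (hck : c ≤ p ^ k)
    (Q : ℕ → Type) [∀ n, Group (Q n)] (hQ : ∀ n, P (Q n)) (π : ∀ n, Γ →* Q n)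
    (A : ∀ n, Subgroup (Q n)) (hA : ∀ n, AbNormal (A n))
    (hΘ : ∀ (n : ℕ) (g : Γ), ∃ θ ∈ Θ, ∃ h ∈ Subgroup.closure {x : Γ | ∃ y : Γ, y ^ (p ^ k) = x},
      ∀ m ≤ n, π m g = π m θ * π m h) :
    ∃ f : ℕ, ∀ n, ∀ l : List Γ, l.length = f → ∀ d, foldC ((cj (hA n)).comp (π n)) l d = 0 := by
  classical
  have hfinA : ∀ n, Finite (AN (A n) (hA n)) := by
    intro n
    have h1 : Finite (Q n) := hP.fin _ (hQ n)
    have h2 : Finite (A n) := inferInstance
    exact h2
  have hpA : ∀ n, IsPGroup p (Multiplicative (AN (A n) (hA n))) := by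
    intro n
    have h1 : IsPGroup p (Q n) := hP.pg _ (hQ n)
    intro x
    obtain ⟨k, hk⟩ := h1 (AN.val (hA n) x.toAdd)
    refine ⟨k, ?_⟩
    change p ^ k • x.toAdd = 0
    apply AN.val_injective
    rw [AN.val_nsmul, hk, AN.val_zero]
  have hcE : ∀ n g, (((cj (hA n)).comp (π n)) g - 1) ^ c = 0 := fun n g =>
    cj_pow (hA n) hp.out hP c hc (hQ n) (π n g)
  refine family (fun n => AN (A n) (hA n)) hpA (fun n => (cj (hA n)).comp (π n)) c hcE Θ ?_
  intro n g
  -- the product ring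
  let E : Type := ∀ m : Fin (n + 1), AddMonoid.End (AN (A m) (hA m))
  let ρ : Γ →* E :=
    { toFun := fun g m => cj (hA m) (π m g)
      map_one' := by
        funext m
        rw [map_one, map_one]
        rfl
      map_mul' := by
        intro a b
        funext m
        rw [map_mul, map_mul]
        rfl }
  have hK : ∃ K : ℕ, (p : E) ^ K = 0 := by
    have h1 : ∀ m : Fin (n + 1), ∃ K : ℕ, ∀ b : AN (A m) (hA m), p ^ K • b = 0 := by
      intro m
      obtain ⟨k, hk⟩ := IsPGroup.iff_card.1 (hpA m)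
      refine ⟨k, fun b => ?_⟩
      have h1 : Nat.card (AN (A m) (hA m)) = p ^ k := hk
      rw [← h1]
      exact card_nsmul_eq_zero'
    choose K hK using h1
    refine ⟨∑ m, K m, ?_⟩
    funext m
    ext b
    have h2 : ((p : E) ^ (∑ m, K m)) m = ((p ^ (∑ m, K m) : ℕ) :
        AddMonoid.End (AN (A m) (hA m))) := by
      rw [← Nat.cast_pow]
      rfl
    rw [h2]
    change (p ^ (∑ m, K m)) • b = 0
    obtain ⟨r, hr⟩ := Nat.exists_eq_add_of_le (Finset.single_le_sum
      (f := K) (fun i _ => Nat.zero_le _) (Finset.mem_univ m))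
    rw [hr, pow_add, mul_comm, mul_smul, hK, smul_zero]
  obtain ⟨K, hK⟩ := hK
  have hcρ : ∀ g, (ρ g - 1) ^ c = 0 := by
    intro g
    funext m
    exact hcE m g
  have h1 := span_closure hp.out hK ρ hck hcρ (Θ : Set Γ) (by
    intro g
    obtain ⟨θ, hθ, h, hh, he⟩ := hΘ n g
    refine ⟨θ, hθ, h, hh, ?_⟩
    funext m
    have h2 := he m (Nat.lt_succ_iff.1 m.2)
    change cj (hA m) (π m g) = cj (hA m) (π m θ) * cj (hA m) (π m h)
    rw [h2, map_mul]) g
  rw [← Submodule.span_int_eq_addSubgroupClosure] at h1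
  have h2 : ρ g ∈ Submodule.span ℤ (ρ '' (Θ : Set Γ)) := h1
  rw [Submodule.mem_span_image_finset_iff_exists_fun'] at h2
  obtain ⟨lam, hlam⟩ := h2
  refine ⟨lam, fun m hm => ?_⟩
  have h3 := congrFun hlam ⟨m, Nat.lt_succ_of_le hm⟩
  rw [Finset.sum_apply] at h3
  exact h3.symm

end

end H89.ProP
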