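import Mathlib

set_option autoImplicit false

namespace H89.ProP

/-- elementary abelian by elementary abelian -/
def EE (p : ℕ) (G : Type*) [Group G] : Prop :=
  ∃ N : Subgroup G, N.Normal ∧ (∀ x ∈ N, ∀ y ∈ N, x * y = y * x) ∧ (∀ x ∈ N, x ^ p = 1) ∧
    (∀ x y : G, x * y * x⁻¹ * y⁻¹ ∈ N) ∧ (∀ x : G, x ^ p ∈ N)

/-- A class of finite `p`-groups closed under isomorphism, subgroups, quotients, finite powers. -/
structure FinVar (p : ℕ) (P : (G : Type) → [Group G] → Prop) : Prop where
  fin : ∀ (G : Type) [Group G], P G → Finite G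
  pg : ∀ (G : Type) [Group G], P G → IsPGroup p G
  iso : ∀ (G H : Type) [Group G] [Group H], Nonempty (G ≃* H) → P G → P H
  sub : ∀ (G : Type) [Group G], P G → ∀ H : Subgroup G, P H
  quot : ∀ (G : Type) [Group G], P G → ∀ (N : Subgroup G) [N.Normal], P (G ⧸ N)
  pow : ∀ (G : Type) [Group G], P G → ∀ (I : Type) [Finite I], P (I → G)

variable {p : ℕ} {P : (G : Type) → [Group G] → Prop}

theorem FinVar.inj (h : FinVar p P) {G H : Type} [Group G] [Group H] (hG : P G) (f : H →* G)
    (hf : Function.Injective f) : P H :=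
  h.iso _ _ ⟨(MonoidHom.ofInjective hf).symm⟩ (h.sub G hG f.range)

theorem FinVar.surj (h : FinVar p P) {G H : Type} [Group G] [Group H] (hG : P G) (f : G →* H)
    (hf : Function.Surjective f) : P H :=
  h.iso _ _ ⟨QuotientGroup.quotientKerEquivOfSurjective f hf⟩ (h.quot G hG f.ker)

theorem FinVar.prod (h : FinVar p P) {G : Type} [Group G] (hG : P G) : P (G × G) := by
  refine h.inj (h.pow G hG Bool) (MonoidHom.mk' (fun x => fun b => if b then x.1 else x.2) ?_) ?_
  · intro a b
    funext i
    by_cases hi : i <;> simp [hi]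
  · intro a b hab
    have h1 := congrFun hab true
    have h2 := congrFun hab false
    simp at h1 h2
    exact Prod.ext h1 h2

end H89.ProP
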