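import Pool.Agent.H89.ProP.UnipPadic

set_option autoImplicit false

namespace H89.ProP

open Filter Topology Multiplicative

section

variable {p : ℕ} [hp : Fact p.Prime]

theorem padic_smul_congr {B : Type} [AddCommGroup B] [Module ℤ_[p] B] {k : ℕ}
    (hk : ∀ b : B, p ^ k • b = 0) {x y : ℤ_[p]} (h : (p : ℤ_[p]) ^ k ∣ x - y) (b : B) :
    x • b = y • b := by
  obtain ⟨z, hz⟩ := h
  have h1 : x = y + z * (p : ℤ_[p]) ^ k := by linear_combination hz
  rw [h1, add_smul, mul_smul, ← Nat.cast_pow, Nat.cast_smul_eq_nsmul, hk, smul_zero, add_zero]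

theorem padic_exists_int (x : ℤ_[p]) (k : ℕ) : ∃ n : ℤ, (p : ℤ_[p]) ^ k ∣ x - n := by
  refine ⟨(PadicInt.appr x k : ℤ), ?_⟩
  rw [← Ideal.mem_span_singleton]
  exact_mod_cast PadicInt.appr_spec k x

theorem padic_linear {B : Type} [AddCommGroup B] [Module ℤ_[p] B] {k : ℕ}
    (hk : ∀ b : B, p ^ k • b = 0) (f : AddMonoid.End B) (x : ℤ_[p]) (b : B) :
    f (x • b) = x • f b := by
  obtain ⟨n, hn⟩ := padic_exists_int x k
  rw [padic_smul_congr hk hn, padic_smul_congr hk hn, Int.cast_smul_eq_zsmul,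
    Int.cast_smul_eq_zsmul, map_zsmul]

theorem End_sum_apply {B ι : Type} [AddCommGroup B] (s : Finset ι) (f : ι → AddMonoid.End B)
    (b : B) : (∑ i ∈ s, f i) b = ∑ i ∈ s, f i b := by
  classical
  induction s using Finset.induction_on with
  | empty => simp
  | insert a s ha ih =>
    rw [Finset.sum_insert ha, Finset.sum_insert ha, ← ih]
    rfl

/-- finite abelian `p`-groups are modules over the `p`-adic integers -/
@[instance_reducible]
noncomputable def padicMod (p : ℕ) [hp : Fact p.Prime] (B : Type) [AddCommGroup B] (k : ℕ)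
    (hk : ∀ b : B, p ^ k • b = 0) : Module ℤ_[p] B :=
  letI : Module (ZMod (p ^ k)) B := AddCommGroup.zmodModule hk
  Module.compHom B (PadicInt.toZModPow k : ℤ_[p] →+* ZMod (p ^ k))

/-- the action on the product -/
noncomputable def prodRep {Γ : Type} [Group Γ] (A : ℕ → Type) [∀ n, AddCommGroup (A n)]
    [∀ n, Module ℤ_[p] (A n)] (hA : ∀ n, ∃ k : ℕ, ∀ b : A n, p ^ k • b = 0)
    (ρ : ∀ n, Γ →* AddMonoid.End (A n)) : Γ →* Module.End ℤ_[p] (∀ n, A n) where
  toFun g :=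
    { toFun := fun w n => ρ n g (w n)
      map_add' := by
        intro x y
        funext n
        simp
      map_smul' := by
        intro x w
        funext n
        obtain ⟨k, hk⟩ := hA n
        exact padic_linear hk (ρ n g) x (w n) }
  map_one' := by
    ext w n
    simp
  map_mul' := by
    intro a b
    ext w n
    simp

theorem prodRep_apply {Γ : Type} [Group Γ] (A : ℕ → Type) [∀ n, AddCommGroup (A n)]
    [∀ n, Module ℤ_[p] (A n)] (hA : ∀ n, ∃ k : ℕ, ∀ b : A n, p ^ k • b = 0)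
    (ρ : ∀ n, Γ →* AddMonoid.End (A n)) (g : Γ) (w : ∀ n, A n) (n : ℕ) :
    prodRep A hA ρ g w n = ρ n g (w n) := rfl

theorem family_aux {Γ : Type} [Group Γ] (A : ℕ → Type) [∀ n, AddCommGroup (A n)]
    [∀ n, Module ℤ_[p] (A n)] (hA : ∀ n, ∃ k : ℕ, ∀ b : A n, p ^ k • b = 0)
    (ρ : ∀ n, Γ →* AddMonoid.End (A n)) (c : ℕ) (hc : ∀ n g, (ρ n g - 1) ^ c = 0)
    (Θ : Finset Γ)
    (hΘ : ∀ (n : ℕ) (g : Γ), ∃ lam : Γ → ℤ, ∀ m ≤ n, ρ m g = ∑ θ ∈ Θ, lam θ • ρ m θ) :
    ∃ f : ℕ, ∀ n, ∀ l : List Γ, l.length = f → ∀ d : A n, foldC (ρ n) l d = 0 := by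
  classical
  -- compactness
  have hcomb : ∀ g : Γ, ∃ lam : Γ → ℤ_[p],
      prodRep A hA ρ g = ∑ θ ∈ Θ, lam θ • prodRep A hA ρ θ := by
    intro g
    choose lam hlam using fun n => hΘ n g
    let s : ℕ → (Θ → ℤ_[p]) := fun n θ => (lam n θ.1 : ℤ_[p])
    obtain ⟨a, -, φ, hφ, ha⟩ := (isCompact_univ (X := Θ → ℤ_[p])).tendsto_subseq
      (x := s) (fun _ => Set.mem_univ _)
    refine ⟨fun θ => if h : θ ∈ Θ then a ⟨θ, h⟩ else 0, ?_⟩
    ext w m
    obtain ⟨k, hk⟩ := hA m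
    have h1 : ∀ θ : Θ, ∀ᶠ n in atTop, (p : ℤ_[p]) ^ k ∣ (s (φ n) θ) - a θ := by
      intro θ
      have h2 : Tendsto (fun n => s (φ n) θ) atTop (𝓝 (a θ)) := (tendsto_pi_nhds.1 ha) θ
      have h3 := Metric.tendsto_nhds.1 h2 ((p : ℝ) ^ (-(k : ℤ)))
        (zpow_pos (Nat.cast_pos.2 hp.out.pos) _)
      filter_upwards [h3] with n hn
      rw [dist_eq_norm] at hn
      rw [← Ideal.mem_span_singleton, ← PadicInt.norm_le_pow_iff_mem_span_pow]
      exact hn.le
    have h2 : ∀ᶠ n in atTop, ∀ θ : Θ, (p : ℤ_[p]) ^ k ∣ (s (φ n) θ) - a θ :=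
      Filter.eventually_all.2 h1
    obtain ⟨n, hn1, hn2⟩ := (h2.and (hφ.tendsto_atTop.eventually_ge_atTop m)).exists
    have h3 := hlam (φ n) m hn2
    rw [prodRep_apply, h3]
    have h4 : (∑ θ ∈ Θ, lam (φ n) θ • ρ m θ) (w m) = ∑ θ ∈ Θ, lam (φ n) θ • (ρ m θ (w m)) := by
      rw [End_sum_apply]
      rfl
    have h5 : (∑ θ ∈ Θ, (if h : θ ∈ Θ then a ⟨θ, h⟩ else 0) • prodRep A hA ρ θ) w m =
        ∑ θ ∈ Θ, (if h : θ ∈ Θ then a ⟨θ, h⟩ else 0) • (ρ m θ (w m)) := by
      rw [LinearMap.sum_apply, Finset.sum_apply]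
      rfl
    rw [h4, h5]
    refine Finset.sum_congr rfl fun θ hθ => ?_
    rw [dif_pos hθ, ← Int.cast_smul_eq_zsmul ℤ_[p]]
    exact padic_smul_congr hk (hn1 ⟨θ, hθ⟩) _
  -- the algebra
  let P := prodRep A hA ρ
  let S : Subalgebra ℤ_[p] (Module.End ℤ_[p] (∀ n, A n)) :=
    Algebra.adjoin ℤ_[p] (Set.range P)
  have hS : Subalgebra.toSubmodule S = Submodule.span ℤ_[p] (Set.range P) := by
    rw [Algebra.adjoin_eq_span]
    congr 1
    have h3 : (Submonoid.closure (Set.range P)) = MonoidHom.mrange P := by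
      rw [← MonoidHom.coe_mrange, Submonoid.closure_eq]
    rw [h3, MonoidHom.coe_mrange]
  have hS2 : Submodule.span ℤ_[p] (Set.range P) = Submodule.span ℤ_[p] (P '' Θ) := by
    refine le_antisymm (Submodule.span_le.2 ?_) (Submodule.span_mono (Set.image_subset_range _ _))
    rintro _ ⟨g, rfl⟩
    obtain ⟨lam, hlam⟩ := hcomb g
    change prodRep A hA ρ g ∈ _
    rw [hlam]
    exact Submodule.sum_mem _ fun θ hθ => Submodule.smul_mem _ _
      (Submodule.subset_span ⟨θ, hθ, rfl⟩)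
  have hfin : Module.Finite ℤ_[p] S := by
    have h1 : (Subalgebra.toSubmodule S).FG := by
      rw [hS, hS2]
      exact Submodule.fg_span (Θ.finite_toSet.image P)
    exact Module.Finite.iff_fg.2 h1
  let ρS : Γ →* S := P.codRestrict S (fun g => Algebra.subset_adjoin ⟨g, rfl⟩)
  have hspan : Submodule.span ℤ_[p] (Set.range ρS) = ⊤ := by
    rw [eq_top_iff]
    rintro ⟨x, hx⟩ -
    have hx' : x ∈ Submodule.span ℤ_[p] (Set.range P) := by
      rw [← hS]
      exact hx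
    have h1 : ∀ y ∈ Submodule.span ℤ_[p] (Set.range P), ∀ hy : y ∈ S,
        (⟨y, hy⟩ : S) ∈ Submodule.span ℤ_[p] (Set.range ρS) := by
      intro y hy
      induction hy using Submodule.span_induction with
      | mem y hy =>
        obtain ⟨g, rfl⟩ := hy
        intro _
        exact Submodule.subset_span ⟨g, rfl⟩
      | zero =>
        intro _
        exact Submodule.zero_mem _
      | add a b ha hb iha ihb =>
        intro _
        have ha' : a ∈ S := by
          rw [← Subalgebra.mem_toSubmodule, hS]; exact ha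
        have hb' : b ∈ S := by
          rw [← Subalgebra.mem_toSubmodule, hS]; exact hb
        exact Submodule.add_mem _ (iha ha') (ihb hb')
      | smul r a ha iha =>
        intro _
        have ha' : a ∈ S := by
          rw [← Subalgebra.mem_toSubmodule, hS]; exact ha
        exact Submodule.smul_mem _ r (iha ha')
    exact h1 x hx' hx
  have hpowE : ∀ (g : Γ) (m : ℕ) (w : ∀ n, A n) (n : ℕ),
      ((P g - 1) ^ m) w n = ((ρ n g - 1) ^ m) (w n) := by
    intro g m w n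
    induction m generalizing w with
    | zero => rfl
    | succ m ih =>
      rw [pow_succ, pow_succ]
      change ((P g - 1) ^ m) ((P g - 1) w) n = ((ρ n g - 1) ^ m) ((ρ n g - 1) (w n))
      rw [ih]
      rfl
  have hcS : ∀ g, (ρS g - 1) ^ c = 0 := by
    intro g
    refine Subtype.ext ?_
    change (P g - 1) ^ c = 0
    ext w n
    rw [hpowE, hc]
    rfl
  obtain ⟨f, hf⟩ := unip_padic (p := p) (S := S) (Γ := Γ) ρS hspan c hcS
  refine ⟨f, fun n l hl d => ?_⟩
  have h1 := hf l hl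
  have h2 : ∀ (l : List Γ) (w : ∀ n, A n),
      ((l.map (fun g => ρS g - 1)).prod : S).1 w n = foldC (ρ n) l (w n) := by
    intro l w
    induction l generalizing w with
    | nil => rfl
    | cons a l ih =>
      rw [List.map_cons, List.prod_cons, foldC_cons, ← ih]
      rfl
  have h3 := h2 l (Pi.single n d)
  rw [h1, Pi.single_eq_same] at h3
  exact h3.symm

theorem family {Γ : Type} [Group Γ] (A : ℕ → Type) [∀ n, AddCommGroup (A n)]
    [∀ n, Finite (A n)] (hA : ∀ n, IsPGroup p (Multiplicative (A n)))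
    (ρ : ∀ n, Γ →* AddMonoid.End (A n)) (c : ℕ) (hc : ∀ n g, (ρ n g - 1) ^ c = 0)
    (Θ : Finset Γ)
    (hΘ : ∀ (n : ℕ) (g : Γ), ∃ lam : Γ → ℤ, ∀ m ≤ n, ρ m g = ∑ θ ∈ Θ, lam θ • ρ m θ) :
    ∃ f : ℕ, ∀ n, ∀ l : List Γ, l.length = f → ∀ d : A n, foldC (ρ n) l d = 0 := by
  have hA' : ∀ n, ∃ k : ℕ, ∀ b : A n, p ^ k • b = 0 := by
    intro n
    obtain ⟨k, hk⟩ := IsPGroup.iff_card.1 (hA n)
    refine ⟨k, fun b => ?_⟩
    have h1 : Nat.card (A n) = p ^ k := hk
    rw [← h1]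
    exact card_nsmul_eq_zero'
  let _ : ∀ n, Module ℤ_[p] (A n) := fun n =>
    padicMod p (A n) (hA' n).choose (hA' n).choose_spec
  exact family_aux A hA' ρ c hc Θ hΘ

end

end H89.ProP
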