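import Pool.Agent.H89.ProP.Defs

set_option autoImplicit false

namespace H89.ProP

open Multiplicative commutatorElement

section

variable {A W : Type} [Group A] [AddCommGroup W]

/-- the action of `A` on `Multiplicative W` given by additive endomorphisms. -/
def sdAut (v : A →* AddMonoid.End W) : A →* MulAut (Multiplicative W) where
  toFun a :=
    { toFun := fun w => ofAdd (v a w.toAdd)
      invFun := fun w => ofAdd (v a⁻¹ w.toAdd)
      left_inv := fun w => by
        change ofAdd ((v a⁻¹ * v a) w.toAdd) = w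
        rw [← map_mul, inv_mul_cancel, map_one]; rfl
      right_inv := fun w => by
        change ofAdd ((v a * v a⁻¹) w.toAdd) = w
        rw [← map_mul, mul_inv_cancel, map_one]; rfl
      map_mul' := fun x y => by
        change ofAdd (v a (x.toAdd + y.toAdd)) = _
        rw [map_add]; rfl }
  map_one' := by
    ext w
    simp
  map_mul' a b := by
    ext w
    simp

/-- the semidirect product -/
abbrev SD (v : A →* AddMonoid.End W) : Type := Multiplicative W ⋊[sdAut v] A

theorem sdAut_apply (v : A →* AddMonoid.End W) (a : A) (w : Multiplicative W) :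
    sdAut v a w = ofAdd (v a w.toAdd) := rfl

theorem EE.of_surj {p : ℕ} {B Q : Type*} [Group B] [Group Q] (f : B →* Q)
    (hf : Function.Surjective f) (N : Subgroup B) [hN : N.Normal]
    (h1 : ∀ x ∈ N, ∀ y ∈ N, f (x * y) = f (y * x)) (h2 : ∀ x ∈ N, f (x ^ p) = 1)
    (h3 : ∀ x y : B, x * y * x⁻¹ * y⁻¹ ∈ N) (h4 : ∀ x : B, x ^ p ∈ N) : EE p Q := by
  refine ⟨N.map f, hN.map f hf, ?_, ?_, ?_, ?_⟩
  · rintro _ ⟨x, hx, rfl⟩ _ ⟨y, hy, rfl⟩
    rw [← map_mul, ← map_mul, h1 x hx y hy]
  · rintro _ ⟨x, hx, rfl⟩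
    rw [← map_pow, h2 x hx]
  · intro x y
    obtain ⟨x, rfl⟩ := hf x
    obtain ⟨y, rfl⟩ := hf y
    exact ⟨_, h3 x y, by simp⟩
  · intro x
    obtain ⟨x, rfl⟩ := hf x
    exact ⟨_, h4 x, by simp⟩

/-- a c-fold commutator -/
def foldC {A W : Type} [Group A] [AddCommGroup W] (v : A →* AddMonoid.End W) (l : List A)
    (d : W) : W := l.foldr (fun a d => v a d - d) d

theorem foldC_nil (v : A →* AddMonoid.End W) (d : W) : foldC v [] d = d := rfl

theorem foldC_cons (v : A →* AddMonoid.End W) (a : A) (l : List A) (d : W) :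
    foldC v (a :: l) d = v a (foldC v l d) - foldC v l d := rfl

theorem foldC_append (v : A →* AddMonoid.End W) (l l' : List A) (d : W) :
    foldC v (l ++ l') d = foldC v l (foldC v l' d) := by
  unfold foldC
  rw [List.foldr_append]

theorem sd_commutator (v : A →* AddMonoid.End W) (a : A) (d : W) :
    ⁅(⟨1, a⟩ : SD v), (⟨ofAdd d, 1⟩ : SD v)⁆ = ⟨ofAdd (v a d - d), 1⟩ := by
  rw [commutatorElement_def]
  refine SemidirectProduct.ext ?_ ?_
  · change ((0 + v a d) + v (a * 1) (v a⁻¹ (-0))) + v (a * 1 * a⁻¹) (v (1 : A)⁻¹ (-d)) =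
      v a d - d
    rw [mul_one, mul_inv_cancel, neg_zero, map_zero, map_zero, inv_one, map_one]
    change 0 + v a d + 0 + -d = v a d - d
    abel
  · change a * 1 * a⁻¹ * (1 : A)⁻¹ = 1
    simp

/-- finite `p`-groups act nilpotently on finite abelian `p`-groups -/
theorem pgroup_nilp {p : ℕ} [Fact p.Prime] [Finite A] [Finite W] (hA : IsPGroup p A)
    (hW : IsPGroup p (Multiplicative W)) (v : A →* AddMonoid.End W) :
    ∃ N : ℕ, ∀ l : List A, l.length = N → ∀ d : W, foldC v l d = 0 := by
  have hfin : Finite (SD v) := Finite.of_equiv _ SemidirectProduct.equivProd.symm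
  have hpg : IsPGroup p (SD v) := by
    obtain ⟨m, hm⟩ := IsPGroup.iff_card.1 hA
    obtain ⟨n, hn⟩ := IsPGroup.iff_card.1 hW
    refine IsPGroup.of_card (n := n + m) ?_
    rw [SemidirectProduct.card, hm, hn, pow_add]
  have hnil : Group.IsNilpotent (SD v) := hpg.isNilpotent
  obtain ⟨N, hN⟩ := Subgroup.nilpotent_iff_lowerCentralSeries.1 hnil
  refine ⟨N, fun l hl d => ?_⟩
  have key : ∀ (l : List A), (⟨ofAdd (foldC v l d), 1⟩ : SD v) ∈
        (⊤ : Subgroup (SD v)).lowerCentralSeries l.length := by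
    intro l
    induction l with
    | nil => trivial
    | cons a l ih =>
      rw [foldC_cons, ← sd_commutator, List.length_cons, Subgroup.lowerCentralSeries_succ,
        Subgroup.commutator_comm]
      exact Subgroup.commutator_mem_commutator (Subgroup.mem_top _) ih
  have h1 := key l
  rw [hl, hN, Subgroup.mem_bot] at h1
  exact congrArg SemidirectProduct.left h1

end

section

variable {A W : Type} [CommGroup A] [AddCommGroup W]

theorem sd_main {p : ℕ} {P : (G : Type) → [Group G] → Prop} (hP : FinVar p P) (c : ℕ)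
    (hc : ∀ (G : Type) [Group G], P G → EE p G → (⊤ : Subgroup G).lowerCentralSeries c = ⊥)
    (v : A →* AddMonoid.End W) (hsd : P (SD v))
    (D D0 : AddSubgroup W) (A' : Subgroup A) (hD : ∀ a, ∀ d ∈ D, v a d ∈ D)
    (hD0' : ∀ a, ∀ d ∈ D0, v a d ∈ D0)
    (hpD : ∀ d ∈ D, p • d ∈ D0) (hA' : ∀ a ∈ A', ∀ d ∈ D, v a d - d ∈ D0)
    (hAp : ∀ a, a ^ p ∈ A') (l : List A) (hl : l.length = c) (d : W) (hd : d ∈ D) :
    foldC v l d ∈ D0 := by
  -- the subgroup `B`
  let B : Subgroup (SD v) :=
    { carrier := {x | x.left.toAdd ∈ D}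
      one_mem' := by
        change (0 : W) ∈ D
        exact D.zero_mem
      mul_mem' := by
        intro x y hx hy
        change x.left.toAdd + v x.right y.left.toAdd ∈ D
        exact D.add_mem hx (hD _ _ hy)
      inv_mem' := by
        intro x hx
        change v x.right⁻¹ (-x.left.toAdd) ∈ D
        exact hD _ _ (D.neg_mem hx) }
  let R : Subgroup B :=
    { carrier := {x | x.1.left.toAdd ∈ D0 ∧ x.1.right ∈ A'}
      one_mem' := ⟨D0.zero_mem, A'.one_mem⟩
      mul_mem' := by
        intro x y hx hy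
        refine ⟨?_, A'.mul_mem hx.2 hy.2⟩
        change x.1.left.toAdd + v x.1.right y.1.left.toAdd ∈ D0
        exact D0.add_mem hx.1 (hD0' _ _ hy.1)
      inv_mem' := by
        intro x hx
        refine ⟨?_, A'.inv_mem hx.2⟩
        change v x.1.right⁻¹ (-x.1.left.toAdd) ∈ D0
        exact hD0' _ _ (D0.neg_mem hx.1) }
  have hvmul : ∀ (a b : A) (w : W), v (a * b) w = v a (v b w) := by
    intro a b w
    rw [map_mul]; rfl
  have hR : R.Normal := by
    refine ⟨fun r hr g => ⟨?_, ?_⟩⟩
    · change (g.1.left.toAdd + v g.1.right r.1.left.toAdd) +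
        v (g.1.right * r.1.right) (v g.1.right⁻¹ (-g.1.left.toAdd)) ∈ D0
      rw [← hvmul, mul_assoc, mul_comm r.1.right, mul_inv_cancel_left, map_neg]
      have h1 : g.1.left.toAdd + v g.1.right r.1.left.toAdd + -v r.1.right g.1.left.toAdd =
          v g.1.right r.1.left.toAdd - (v r.1.right g.1.left.toAdd - g.1.left.toAdd) := by abel
      rw [h1]
      exact D0.sub_mem (hD0' _ _ hr.1) (hA' _ hr.2 _ g.2)
    · change g.1.right * r.1.right * g.1.right⁻¹ ∈ A'
      rw [mul_comm g.1.right, mul_inv_cancel_right]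
      exact hr.2
  let N : Subgroup B :=
    { carrier := {x | x.1.right ∈ A'}
      one_mem' := A'.one_mem
      mul_mem' := fun {x y} hx hy => A'.mul_mem hx hy
      inv_mem' := fun {x} hx => A'.inv_mem hx }
  have hN : N.Normal := by
    refine ⟨fun r hr g => ?_⟩
    change g.1.right * r.1.right * g.1.right⁻¹ ∈ A'
    rw [mul_comm g.1.right, mul_inv_cancel_right]
    exact hr
  have hBP : P B := hP.sub _ hsd B
  have hQP : P (B ⧸ R) := hP.quot _ hBP R
  -- equality in the quotient
  have hmem : ∀ x y : B, x.1.right = y.1.right → y.1.left.toAdd - x.1.left.toAdd ∈ D0 →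
      (QuotientGroup.mk' R) x = (QuotientGroup.mk' R) y := by
    intro x y h1 h2
    refine QuotientGroup.eq.2 ⟨?_, ?_⟩
    · change v x.1.right⁻¹ (-x.1.left.toAdd) + v x.1.right⁻¹ y.1.left.toAdd ∈ D0
      rw [← map_add, neg_add_eq_sub]
      exact hD0' _ _ h2
    · change x.1.right⁻¹ * y.1.right ∈ A'
      rw [h1, inv_mul_cancel]
      exact A'.one_mem
  have hpow : ∀ x : B, x ∈ N → ∀ n : ℕ, (x ^ n).1.left.toAdd - n • x.1.left.toAdd ∈ D0 := by
    intro x hx n
    induction n with
    | zero =>
      rw [pow_zero, zero_smul, sub_zero]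
      exact D0.zero_mem
    | succ n ih =>
      rw [pow_succ]
      change ((x ^ n).1.left.toAdd + v (x ^ n).1.right x.1.left.toAdd) -
        (n + 1) • x.1.left.toAdd ∈ D0
      have h1 : ((x ^ n).1.left.toAdd + v (x ^ n).1.right x.1.left.toAdd) -
        (n + 1) • x.1.left.toAdd = ((x ^ n).1.left.toAdd - n • x.1.left.toAdd) +
          (v (x ^ n).1.right x.1.left.toAdd - x.1.left.toAdd) := by
        rw [add_smul, one_smul]; abel
      rw [h1]
      exact D0.add_mem ih (hA' _ (N.pow_mem hx n) _ x.2)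
  have hEE : EE p (B ⧸ R) := by
    refine EE.of_surj (QuotientGroup.mk' R) (QuotientGroup.mk'_surjective R) N ?_ ?_ ?_ ?_
    · intro x hx y hy
      refine hmem _ _ ?_ ?_
      · change x.1.right * y.1.right = y.1.right * x.1.right
        exact mul_comm _ _
      · change (y.1.left.toAdd + v y.1.right x.1.left.toAdd) -
          (x.1.left.toAdd + v x.1.right y.1.left.toAdd) ∈ D0
        have h1 : (y.1.left.toAdd + v y.1.right x.1.left.toAdd) -
          (x.1.left.toAdd + v x.1.right y.1.left.toAdd) =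
          (v y.1.right x.1.left.toAdd - x.1.left.toAdd) -
          (v x.1.right y.1.left.toAdd - y.1.left.toAdd) := by abel
        rw [h1]
        exact D0.sub_mem (hA' _ hy _ x.2) (hA' _ hx _ y.2)
    · intro x hx
      refine (QuotientGroup.eq_one_iff _).2 ⟨?_, ?_⟩
      · have h1 := hpow x hx p
        have h2 := hpD _ x.2
        have h3 := D0.add_mem h1 h2
        rwa [sub_add_cancel] at h3
      · exact N.pow_mem hx p
    · intro x y
      change x.1.right * y.1.right * x.1.right⁻¹ * y.1.right⁻¹ ∈ A'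
      rw [mul_comm x.1.right, mul_inv_cancel_right, mul_inv_cancel]
      exact A'.one_mem
    · intro x
      have h1 : (x ^ p).1.right = x.1.right ^ p := by
        have := map_pow ((SemidirectProduct.rightHom : SD v →* A).comp B.subtype) x p
        exact this
      change (x ^ p).1.right ∈ A'
      rw [h1]
      exact hAp _
  have hnil := hc (B ⧸ R) hQP hEE
  -- commutators
  have key : ∀ (l : List A), ∃ h : foldC v l d ∈ D,
      (QuotientGroup.mk' R) ⟨⟨ofAdd (foldC v l d), 1⟩, h⟩ ∈
        (⊤ : Subgroup (B ⧸ R)).lowerCentralSeries l.length := by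
    intro l
    induction l with
    | nil => exact ⟨hd, trivial⟩
    | cons a l ih =>
      obtain ⟨h, h2⟩ := ih
      have h3 : foldC v (a :: l) d ∈ D := D.sub_mem (hD _ _ h) h
      refine ⟨h3, ?_⟩
      let y : B := ⟨⟨1, a⟩, D.zero_mem⟩
      have h4 : (QuotientGroup.mk' R) ⟨⟨ofAdd (foldC v (a :: l) d), 1⟩, h3⟩ =
          ⁅(QuotientGroup.mk' R) y,
            (QuotientGroup.mk' R) ⟨⟨ofAdd (foldC v l d), 1⟩, h⟩⁆ := by
        rw [commutatorElement_def, ← map_inv, ← map_inv, ← map_mul, ← map_mul, ← map_mul]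
        congr 1
        refine Subtype.ext (SemidirectProduct.ext ?_ ?_)
        · change foldC v (a :: l) d = ((0 + v a (foldC v l d)) +
            v (a * 1) (v a⁻¹ (-0))) + v (a * 1 * a⁻¹) (v (1 : A)⁻¹ (-foldC v l d))
          rw [mul_one, mul_inv_cancel, neg_zero, map_zero, map_zero, inv_one, map_one]
          change v a (foldC v l d) - foldC v l d = 0 + v a (foldC v l d) + 0 + -(foldC v l d)
          abel
        · change (1 : A) = a * 1 * a⁻¹ * (1 : A)⁻¹
          simp
      rw [h4, List.length_cons, Subgroup.lowerCentralSeries_succ, Subgroup.commutator_comm]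
      exact Subgroup.commutator_mem_commutator (Subgroup.mem_top _) h2
  obtain ⟨h, h2⟩ := key l
  rw [hl, hnil, Subgroup.mem_bot] at h2
  exact ((QuotientGroup.eq_one_iff _).1 h2).1

end

end H89.ProP
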