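import Mathlib

set_option autoImplicit false

namespace H89.ProP

open Polynomial

section

variable {K A Γ : Type*} [Field K] [CharZero K] [Ring A] [Algebra K A] [FiniteDimensional K A]

/-- the left ideal of elements with all left multiples of trace zero -/
def trIdeal (K A : Type*) [Field K] [Ring A] [Algebra K A] : Ideal A where
  carrier := {x | ∀ y : A, LinearMap.trace K A (LinearMap.mulLeft K (y * x)) = 0}
  zero_mem' := by
    intro y
    simp
  add_mem' := by
    intro a b ha hb y
    have h1 : LinearMap.mulLeft K (y * (a + b)) =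
        LinearMap.mulLeft K (y * a) + LinearMap.mulLeft K (y * b) := by
      ext z
      simp [mul_add, add_mul, mul_assoc]
    rw [h1, map_add, ha y, hb y, add_zero]
  smul_mem' := by
    intro a x hx y
    have h1 := hx (y * a)
    rw [smul_eq_mul, ← mul_assoc]
    exact h1

theorem isNilpotent_of_mem_trIdeal {x : A} (hx : x ∈ trIdeal K A) : IsNilpotent x := by
  have hint : IsIntegral K x := IsIntegral.of_finite K x
  have hne : minpoly K x ≠ 0 := minpoly.ne_zero hint
  obtain ⟨m, v, hv, hμ⟩ : ∃ (m : ℕ) (v : K[X]), ¬ (X : K[X]) ∣ v ∧ minpoly K x = X ^ m * v := by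
    obtain ⟨m, v, h1, h2⟩ := WfDvdMonoid.max_power_factor hne (irreducible_X (R := K))
    exact ⟨m, v, h1, h2⟩
  have hcop : IsCoprime (X ^ (m + 1) : K[X]) v :=
    ((irreducible_X (R := K)).coprime_iff_not_dvd.2 hv).pow_left
  obtain ⟨a, b, hab⟩ := hcop
  have hzero : aeval x (X ^ m * v) = 0 := by rw [← hμ]; exact minpoly.aeval K x
  set e : A := aeval x (a * X ^ (m + 1)) with he
  have hee : e * e = e := by
    have h1 : a * X ^ (m + 1) * (a * X ^ (m + 1)) =
        a * X ^ (m + 1) - (a * b * X) * (X ^ m * v) := by
      have h2 : a * X ^ (m + 1) = 1 - b * v := by rw [← hab]; ring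
      calc a * X ^ (m + 1) * (a * X ^ (m + 1)) = a * X ^ (m + 1) * (1 - b * v) := by rw [← h2]
        _ = a * X ^ (m + 1) - (a * b * X) * (X ^ m * v) := by ring
    rw [he, ← map_mul, h1, map_sub, map_mul (aeval x) (a * b * X), hzero, mul_zero, sub_zero]
  have hemem : e ∈ trIdeal K A := by
    have h1 : e = aeval x (a * X ^ m) * x := by
      rw [he, pow_succ, ← mul_assoc, map_mul, aeval_X]
    rw [h1]
    exact (trIdeal K A).mul_mem_left _ hx
  have htr : LinearMap.trace K A (LinearMap.mulLeft K e) = 0 := by
    have := hemem 1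
    rwa [one_mul] at this
  have hidem : IsIdempotentElem (LinearMap.mulLeft K e) := by
    ext z
    change e * (e * z) = e * z
    rw [← mul_assoc, hee]
  have h0 : LinearMap.mulLeft K e = 0 :=
    (LinearMap.IsIdempotentElem.trace_eq_zero_iff hidem).1 htr
  have he0 : e = 0 := by
    have := LinearMap.congr_fun h0 1
    simpa using this
  refine ⟨m + 1, ?_⟩
  have h1 : aeval x (b * v) = 1 := by
    have h2 : aeval x (a * X ^ (m + 1) + b * v) = 1 := by rw [hab, map_one]
    rw [map_add, ← he, he0, zero_add] at h2
    exact h2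
  have h3 : aeval x (X ^ (m + 1) * (b * v)) = 0 := by
    have h4 : X ^ (m + 1) * (b * v) = (b * X) * (X ^ m * v) := by ring
    rw [h4, map_mul, hzero, mul_zero]
  rw [map_mul, h1, mul_one, map_pow, aeval_X] at h3
  exact h3

theorem unip_rational [Group Γ] (ρ : Γ →* A) (hspan : Submodule.span K (Set.range ρ) = ⊤)
    (hnil : ∀ g, IsNilpotent (ρ g - 1)) :
    ∃ N : ℕ, ∀ l : List Γ, l.length = N → (l.map (fun g => ρ g - 1)).prod = 0 := by
  have hmem : ∀ g, ρ g - 1 ∈ trIdeal K A := by
    intro g y
    have hy : y ∈ Submodule.span K (Set.range ρ) := by rw [hspan]; trivial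
    have htr0 : ∀ z : A, IsNilpotent z → LinearMap.trace K A (LinearMap.mulLeft K z) = 0 := by
      intro z hz
      have h1 : IsNilpotent (LinearMap.mulLeft K z) := by
        obtain ⟨n, hn⟩ := hz
        refine ⟨n, ?_⟩
        rw [LinearMap.pow_mulLeft, hn]
        ext
        simp
      exact (LinearMap.isNilpotent_trace_of_isNilpotent h1).eq_zero
    induction hy using Submodule.span_induction with
    | mem y hy =>
      obtain ⟨h, rfl⟩ := hy
      have h1 : LinearMap.mulLeft K (ρ h * (ρ g - 1)) =
          LinearMap.mulLeft K (ρ (h * g) - 1) - LinearMap.mulLeft K (ρ h - 1) := by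
        ext z
        simp only [LinearMap.mulLeft_apply, LinearMap.sub_apply, map_mul]
        noncomm_ring
      rw [h1, map_sub, htr0 _ (hnil _), htr0 _ (hnil _), sub_zero]
    | zero => simp
    | add a b _ _ ha hb =>
      have h1 : LinearMap.mulLeft K ((a + b) * (ρ g - 1)) =
          LinearMap.mulLeft K (a * (ρ g - 1)) + LinearMap.mulLeft K (b * (ρ g - 1)) := by
        ext z
        simp [add_mul, mul_assoc]
      rw [h1, map_add, ha, hb, add_zero]
    | smul r a _ ha =>
      have h1 : LinearMap.mulLeft K ((r • a) * (ρ g - 1)) =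
          r • LinearMap.mulLeft K (a * (ρ g - 1)) := by
        ext z
        simp [mul_assoc]
      rw [h1, map_smul, ha, smul_zero]
  have hjac : trIdeal K A ≤ Ring.jacobson A := by
    rw [← Ideal.jacobson_bot]
    intro x hx
    rw [Ideal.mem_jacobson_iff]
    intro y
    have h1 : IsNilpotent (y * x) := isNilpotent_of_mem_trIdeal ((trIdeal K A).mul_mem_left y hx)
    obtain ⟨z, hz⟩ := h1.isUnit_one_add.exists_left_inv
    refine ⟨z, ?_⟩
    rw [Submodule.mem_bot, mul_assoc]
    rw [mul_add, mul_one] at hz
    rw [← hz]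
    abel
  have : IsArtinianRing A := IsArtinianRing.of_finite K A
  obtain ⟨N, hN⟩ := (IsSemiprimaryRing.isNilpotent : IsNilpotent (Ring.jacobson A))
  refine ⟨N, fun l hl => ?_⟩
  have key : ∀ l : List Γ, (l.map (fun g => ρ g - 1)).prod ∈ (Ring.jacobson A) ^ l.length := by
    intro l
    induction l using List.reverseRecOn with
    | nil =>
      rw [List.length_nil, Submodule.pow_zero, Ideal.one_eq_top]
      trivial
    | append_singleton l a ih =>
      rw [List.map_append, List.prod_append, List.length_append, List.map_singleton,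
        List.prod_singleton, List.length_singleton, Submodule.pow_succ]
      exact Ideal.mul_mem_mul ih (hjac (hmem a))
  have h1 := key l
  rw [hl, hN] at h1
  exact h1

end

end H89.ProP
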