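import Pool.Agent.H89.ProP.Unip
import Pool.Agent.H89.ProP.Semi

set_option autoImplicit false

namespace H89.ProP

open TensorProduct Multiplicative

/-- groups of automorphisms of finite abelian `p`-groups whose elements have `p`-power order
act nilpotently -/
theorem pgroup_nilp' {p : ℕ} [Fact p.Prime] {Γ W : Type} [Group Γ] [AddCommGroup W] [Finite W]
    (hW : IsPGroup p (Multiplicative W)) (v : Γ →* AddMonoid.End W)
    (hv : ∀ g, ∃ k : ℕ, v g ^ (p ^ k) = 1) :
    ∃ N : ℕ, ∀ l : List Γ, l.length = N → ∀ d : W, foldC v l d = 0 := by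
  classical
  have hfin : Finite (AddMonoid.End W) :=
    Finite.of_injective (fun f : AddMonoid.End W => (f : W → W)) DFunLike.coe_injective
  let A := (MonoidHom.toHomUnits v).range
  have hA : IsPGroup p A := by
    rintro ⟨_, g, rfl⟩
    obtain ⟨k, hk⟩ := hv g
    refine ⟨k, Subtype.ext (Units.ext ?_)⟩
    exact hk
  let w : A →* AddMonoid.End W := (Units.coeHom _).comp A.subtype
  have hfinu : Finite (AddMonoid.End W)ˣ := Finite.of_injective (fun u => (u : AddMonoid.End W))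
    (fun a b h => Units.ext h)
  obtain ⟨N, hN⟩ := pgroup_nilp hA hW w
  refine ⟨N, fun l hl d => ?_⟩
  have h1 := hN (l.map (fun g => ⟨MonoidHom.toHomUnits v g, g, rfl⟩)) (by simpa using hl) d
  rw [← h1]
  clear h1 hl
  induction l with
  | nil => rfl
  | cons a l ih =>
    rw [List.map_cons, foldC_cons, foldC_cons, ih]
    rfl

theorem unip_padic {p : ℕ} [Fact p.Prime] {S Γ : Type} [Ring S] [Algebra ℤ_[p] S]
    [Module.Finite ℤ_[p] S] [Group Γ] (ρ : Γ →* S)
    (hspan : Submodule.span ℤ_[p] (Set.range ρ) = ⊤) (c : ℕ) (hc : ∀ g, (ρ g - 1) ^ c = 0) :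
    ∃ f : ℕ, ∀ l : List Γ, l.length = f → (l.map (fun g => ρ g - 1)).prod = 0 := by
  classical
  have hp : p.Prime := Fact.out
  -- rational part
  let ι : S →+* ℚ_[p] ⊗[ℤ_[p]] S :=
    (Algebra.TensorProduct.includeRight : S →ₐ[ℤ_[p]] ℚ_[p] ⊗[ℤ_[p]] S).toRingHom
  have hι : ∀ s : S, ι s = (1 : ℚ_[p]) ⊗ₜ[ℤ_[p]] s := fun _ => rfl
  let ρ' : Γ →* ℚ_[p] ⊗[ℤ_[p]] S := ι.toMonoidHom.comp ρ
  have hspan' : Submodule.span ℚ_[p] (Set.range ρ') = ⊤ := by
    rw [eq_top_iff]
    rintro x -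
    have h1 : ∀ s : S, (1 : ℚ_[p]) ⊗ₜ[ℤ_[p]] s ∈ Submodule.span ℚ_[p] (Set.range ρ') := by
      intro s
      have hs : s ∈ Submodule.span ℤ_[p] (Set.range ρ) := by rw [hspan]; trivial
      induction hs using Submodule.span_induction with
      | mem x hx =>
        obtain ⟨g, rfl⟩ := hx
        exact Submodule.subset_span ⟨g, rfl⟩
      | zero => simp
      | add a b _ _ ha hb =>
        rw [TensorProduct.tmul_add]
        exact Submodule.add_mem _ ha hb
      | smul r a _ ha =>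
        rw [TensorProduct.tmul_smul, ← algebraMap_smul ℚ_[p] r]
        exact Submodule.smul_mem _ _ ha
    induction x using TensorProduct.induction_on with
    | zero => exact Submodule.zero_mem _
    | tmul q s =>
      have h2 : q ⊗ₜ[ℤ_[p]] s = q • ((1 : ℚ_[p]) ⊗ₜ[ℤ_[p]] s) := by
        rw [TensorProduct.smul_tmul', smul_eq_mul, mul_one]
      rw [h2]
      exact Submodule.smul_mem _ _ (h1 s)
    | add x y hx hy => exact Submodule.add_mem _ hx hy
  have hρ' : ∀ g, ρ' g - 1 = ι (ρ g - 1) := by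
    intro g
    rw [map_sub, map_one]
    rfl
  have hnil' : ∀ g, IsNilpotent (ρ' g - 1) := by
    intro g
    refine ⟨c, ?_⟩
    rw [hρ', ← map_pow, hc, map_zero]
  obtain ⟨N, hN⟩ := unip_rational ρ' hspan' hnil'
  have hN' : ∀ l : List Γ, l.length = N → ∃ k : ℕ,
      ((p : ℤ_[p]) ^ k) • (l.map (fun g => ρ g - 1)).prod = 0 := by
    intro l hl
    have h1 := hN l hl
    have h2 : (l.map (fun g => ρ' g - 1)).prod = ι (l.map (fun g => ρ g - 1)).prod := by
      rw [map_list_prod, List.map_map]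
      congr 1
      refine List.map_congr_left fun g _ => ?_
      exact hρ' g
    rw [h2] at h1
    have h3 : (TensorProduct.mk ℤ_[p] ℚ_[p] S 1) (l.map (fun g => ρ g - 1)).prod = 0 := h1
    rw [IsLocalizedModule.eq_zero_iff (nonZeroDivisors ℤ_[p])] at h3
    obtain ⟨s, hs⟩ := h3
    have hs0 : (s : ℤ_[p]) ≠ 0 := nonZeroDivisors.coe_ne_zero s
    refine ⟨(s : ℤ_[p]).valuation, ?_⟩
    have h4 := PadicInt.unitCoeff_spec hs0
    have h5 : ((s : ℤ_[p])) • (l.map (fun g => ρ g - 1)).prod = 0 := hs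
    rw [h4, mul_smul] at h5
    have h6 := congrArg (fun x => ((PadicInt.unitCoeff hs0)⁻¹ : ℤ_[p]ˣ).val • x) h5
    simp only [smul_zero] at h6
    rwa [smul_smul, Units.inv_mul, one_smul] at h6
  -- uniform torsion exponent
  have hnoeth : IsNoetherian ℤ_[p] S := inferInstance
  let Tn : ℕ →o Submodule ℤ_[p] S :=
    { toFun := fun n => LinearMap.ker (LinearMap.lsmul ℤ_[p] S ((p : ℤ_[p]) ^ n))
      monotone' := by
        intro m n hmn x hx
        rw [LinearMap.mem_ker, LinearMap.lsmul_apply] at hx ⊢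
        obtain ⟨k, rfl⟩ := Nat.exists_eq_add_of_le hmn
        rw [pow_add, mul_comm, mul_smul, hx, smul_zero] }
  obtain ⟨e, he⟩ := monotone_stabilizes_iff_noetherian.2 hnoeth Tn
  have he' : ∀ (x : S) (k : ℕ), ((p : ℤ_[p]) ^ k) • x = 0 → ((p : ℤ_[p]) ^ e) • x = 0 := by
    intro x k hk
    have h1 : x ∈ Tn k := hk
    have h2 : x ∈ Tn (max e k) := Tn.monotone' (le_max_right e k) h1
    rw [← he _ (le_max_left e k)] at h2
    exact h2
  -- mod `p` part
  let I : Ideal ℤ_[p] := Ideal.span {(p : ℤ_[p])}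
  let pS : Submodule ℤ_[p] S := I • (⊤ : Submodule ℤ_[p] S)
  have hpS : ∀ x ∈ pS, ∃ y : S, x = (p : ℤ_[p]) • y := by
    intro x hx
    refine Submodule.smul_induction_on hx ?_ ?_
    · intro r hr n _
      obtain ⟨a, rfl⟩ := Ideal.mem_span_singleton'.1 hr
      exact ⟨a • n, by rw [smul_smul, mul_comm]⟩
    · rintro a b ⟨y, rfl⟩ ⟨z, rfl⟩
      exact ⟨y + z, by rw [smul_add]⟩
  have hfinR : Finite (ℤ_[p] ⧸ I) := by
    have h1 : Finite (ZMod p) := inferInstance
    have h2 : Finite (IsLocalRing.ResidueField ℤ_[p]) :=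
      Finite.of_equiv _ (PadicInt.residueField (p := p)).symm.toEquiv
    have h3 : IsLocalRing.maximalIdeal ℤ_[p] = I := PadicInt.maximalIdeal_eq_span_p
    rw [← h3]
    exact h2
  have hfinW : Finite (S ⧸ pS) := by
    have h1 : Module.Finite (ℤ_[p] ⧸ I) (S ⧸ pS) :=
      Module.Finite.of_restrictScalars_finite ℤ_[p] (ℤ_[p] ⧸ I) (S ⧸ pS)
    exact Module.finite_of_finite (ℤ_[p] ⧸ I)
  have hpS2 : ∀ y : S, (p : ℤ_[p]) • y ∈ pS := fun y =>
    Submodule.smul_mem_smul (Ideal.mem_span_singleton_self _) trivial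
  have hpgW : IsPGroup p (Multiplicative (S ⧸ pS)) := by
    intro x
    refine ⟨1, ?_⟩
    obtain ⟨y, hy⟩ := Submodule.mkQ_surjective pS x.toAdd
    change p ^ 1 • x.toAdd = 0
    rw [pow_one, ← hy, ← map_nsmul]
    refine (Submodule.Quotient.mk_eq_zero _).2 ?_
    rw [← Nat.cast_smul_eq_nsmul ℤ_[p]]
    exact hpS2 y
  have hleft : ∀ a : S, pS ≤ pS.comap (LinearMap.mulLeft ℤ_[p] a) := by
    intro a x hx
    obtain ⟨y, rfl⟩ := hpS x hx
    rw [Submodule.mem_comap, LinearMap.mulLeft_apply, mul_smul_comm]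
    exact hpS2 _
  let v : Γ →* AddMonoid.End (S ⧸ pS) :=
    { toFun := fun g => (pS.mapQ pS (LinearMap.mulLeft ℤ_[p] (ρ g)) (hleft _)).toAddMonoidHom
      map_one' := by
        ext x
        obtain ⟨y, rfl⟩ := Submodule.mkQ_surjective pS x
        change pS.mapQ pS (LinearMap.mulLeft ℤ_[p] (ρ 1)) (hleft _) (pS.mkQ y) = pS.mkQ y
        rw [Submodule.mkQ_apply, Submodule.mapQ_apply, map_one, LinearMap.mulLeft_apply, one_mul]
      map_mul' := by
        intro a b
        ext x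
        obtain ⟨y, rfl⟩ := Submodule.mkQ_surjective pS x
        change pS.mapQ pS (LinearMap.mulLeft ℤ_[p] (ρ (a * b))) (hleft _) (pS.mkQ y) =
          pS.mapQ pS (LinearMap.mulLeft ℤ_[p] (ρ a)) (hleft _)
            (pS.mapQ pS (LinearMap.mulLeft ℤ_[p] (ρ b)) (hleft _) (pS.mkQ y))
        simp only [Submodule.mkQ_apply, Submodule.mapQ_apply, LinearMap.mulLeft_apply, map_mul,
          mul_assoc] }
  have hv : ∀ g (y : S), v g (pS.mkQ y) = pS.mkQ (ρ g * y) := fun _ _ => rfl
  have hvp : ∀ g, ∃ k : ℕ, v g ^ (p ^ k) = 1 := by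
    intro g
    refine ⟨c, ?_⟩
    rw [← map_pow]
    ext x
    obtain ⟨y, rfl⟩ := Submodule.mkQ_surjective pS x
    rw [hv]
    obtain ⟨r, hr⟩ := (Commute.one_right (ρ g - 1)).exists_add_pow_prime_pow_eq hp c
    rw [sub_add_cancel, ← map_pow, pow_eq_zero_of_le (Nat.lt_pow_self hp.one_lt).le (hc g),
      one_pow, zero_add, mul_one] at hr
    rw [hr]
    change pS.mkQ _ = pS.mkQ y
    rw [← sub_eq_zero, ← map_sub]
    refine (Submodule.Quotient.mk_eq_zero _).2 ?_
    have h1 : (1 + (p : S) * (ρ g - 1) * r) * y - y = (p : ℤ_[p]) • (((ρ g - 1) * r) * y) := by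
      rw [Algebra.smul_def, map_natCast]
      noncomm_ring
    rw [h1]
    exact hpS2 _
  obtain ⟨N', hN2⟩ := pgroup_nilp' hpgW v hvp
  have hN3 : ∀ l : List Γ, l.length = N' → ∃ y : S,
      (l.map (fun g => ρ g - 1)).prod = (p : ℤ_[p]) • y := by
    intro l hl
    apply hpS
    have h1 := hN2 l hl (pS.mkQ 1)
    have h2 : ∀ l : List Γ, foldC v l (pS.mkQ 1) =
        pS.mkQ (l.map (fun g => ρ g - 1)).prod := by
      intro l
      induction l with
      | nil => simp [foldC]
      | cons a l ih =>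
        rw [foldC_cons, ih, hv, ← map_sub, List.map_cons, List.prod_cons, sub_mul, one_mul]
    rw [h2] at h1
    exact (Submodule.Quotient.mk_eq_zero _).1 h1
  have hN4 : ∀ (n : ℕ) (l : List Γ), l.length = N' * n → ∃ y : S,
      (l.map (fun g => ρ g - 1)).prod = ((p : ℤ_[p]) ^ n) • y := by
    intro n
    induction n with
    | zero =>
      intro l hl
      exact ⟨_, by rw [pow_zero, one_smul]⟩
    | succ n ih =>
      intro l hl
      obtain ⟨y, hy⟩ := ih (l.take (N' * n)) (by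
        rw [List.length_take, hl]
        exact min_eq_left (Nat.mul_le_mul le_rfl (Nat.le_succ n)))
      obtain ⟨z, hz⟩ := hN3 (l.drop (N' * n)) (by
        rw [List.length_drop, hl]
        have : N' * (n + 1) = N' * n + N' := by ring
        omega)
      refine ⟨y * z, ?_⟩
      rw [← List.take_append_drop (N' * n) l, List.map_append, List.prod_append,
        hy, hz, smul_mul_smul_comm, ← pow_succ]
  refine ⟨N' * e + N, fun l hl => ?_⟩
  obtain ⟨y, hy⟩ := hN4 e (l.take (N' * e)) (by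
    rw [List.length_take, hl]
    exact min_eq_left (Nat.le_add_right _ _))
  obtain ⟨k, hk⟩ := hN' (l.drop (N' * e)) (by
    rw [List.length_drop, hl]
    omega)
  have hk2 := he' _ _ hk
  rw [← List.take_append_drop (N' * e) l, List.map_append, List.prod_append,
    hy, smul_mul_assoc, ← mul_smul_comm, hk2, mul_zero]

end H89.ProP
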